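import Pool.Agent.MQK.SDefs

/-!
# MQK OkE: open parts of the cone
-/

set_option autoImplicit false

open Topology Filter Metric MvPolynomial

noncomputable section

namespace Pool.Agent.MQK

open Pool.Agent.MQL

open Pool.Agent.H36.BP (EN)
open Pool.Agent.H36.BPL (OpenPart)
open Pool.Agent.H17EF (coneE)
open Pool.Agent.H17BP (Surface)
open Pool.Agent.MQ3

variable {M : ℕ} {P : Ideal (MvPolynomial (Fin (M + 1)) ℂ)} {RD Ra : MvPolynomial (Fin (M + 1)) ℂ} {Ko : Set (EN M)} {m : ℕ} {θ : WDiff (coneE P) m}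

/-- an open part is invariant under scaling -/
theorem smul_mem_iff (h : OpenPart (coneE P) Ko) {c : ℂ} (hc : c ≠ 0) {x : EN M} : c • x ∈ Ko ↔ x ∈ Ko := by
  constructor
  · intro h1
    have h2 := h.smul _ h1 c⁻¹ (inv_ne_zero hc)
    rwa [smul_smul, inv_mul_cancel₀ hc, one_smul] at h2
  · intro h1
    exact h.smul _ h1 c hc

theorem LCrv.mem_okE {F : ℂ → EN M} (hF : LCrv θ RD Ko Ra F) (z : ℂ) : F z ∈ Ko := hF.avoid z

end Pool.Agent.MQK
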