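import Pool.Agent.MQK.EtaLL
import Pool.Agent.MQK.LogNL
import Pool.Agent.MQ3.AsmNA
import Pool.Agent.MQ3.LocN
import Pool.Agent.MQ3.LogS0
import Pool.Agent.MQ2.RegE

/-!
# MQK AsmPL: the patch of a special point, on the part of the curve in the polydisc of radius `s' < r`

The potential is `eP + Φ`, the field is the `η` of the package; outside the core it is `conj DD`.  The weight has poles: `hup` is its upper bound by the Jacobian
factor `JD al be` of the package.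
-/

set_option autoImplicit false

open Topology Filter Metric MvPolynomial MeasureTheory Laplacian

noncomputable section

namespace Pool.Agent.MQK

open Pool.Agent.MQL

open Pool.Agent.H36.BP (EN fs)
open Pool.Agent.H14.PP (Tan)
open Pool.Agent.H17BP (Surface IsForm)
open Pool.Agent.H17EF (projVar coneE)
open Pool.Agent.H30M (tau LogSing)
open Pool.Agent.MQ (lam En ztv dvg DDv gr dv)
open Pool.Agent.MQ2 (LocX)
open Pool.Agent.MQ3

variable {M : ℕ} {P : Ideal (MvPolynomial (Fin (M + 1)) ℂ)} {RD Ra : MvPolynomial (Fin (M + 1)) ℂ} {Ko : Set (EN M)} {m : ℕ} {X : NCModel P RD} {θ : WDiff (coneE P) m}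
  {l : LF M} {S : Web X θ l} {Wf : EN M → EN M → EN M → ℂ} {mK jH : ℕ}

/-! ## translations -/

private theorem asmPL_ztv (v : ℂ × ℂ → ℂ × ℂ) (Q : ℂ × ℂ) (p : ℂ → ℂ × ℂ) (z : ℂ) :
    ztv (fun x => v (Q + x)) (fun w => p w - Q) z = ztv v p z := by
  classical
  unfold ztv
  have h1 : deriv (fun w => p w - Q) z = deriv p z := deriv_sub_const _
  have h2 : Q + (p z - Q) = p z := add_sub_cancel _ _
  simp only [h1, h2]

private theorem asmPL_DDv (v : ℂ × ℂ → ℂ × ℂ) (g : ℂ × ℂ → ℂ) (Q : ℂ × ℂ) (p : ℂ → ℂ × ℂ) (z : ℂ) :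
    DDv (fun x => v (Q + x)) (fun x => g (Q + x)) (fun w => p w - Q) z = DDv v g p z := by
  unfold DDv
  rw [asmPL_ztv]
  have h2 : ∀ w, Q + (p w - Q) = p w := fun w => add_sub_cancel _ _
  have h3 : dvg (fun x => v (Q + x)) (p z - Q) = dvg v (p z) := by
    unfold dvg
    rw [fderiv_comp_add_left, h2]
  simp only [h2, h3]

/-! ## the bound of the field at regular points -/

private theorem asmPL_dvg {v : ℂ × ℂ → ℂ × ℂ} {x : ℂ × ℂ} (hv : AnalyticAt ℂ v x) : AnalyticAt ℂ (dvg v) x := by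
  have h1 : ∀ e : ℂ × ℂ, AnalyticAt ℂ (fun Q => fderiv ℂ v Q e) x := fun e =>
    ((ContinuousLinearMap.apply ℂ (ℂ × ℂ) e).analyticAt _).comp hv.fderiv
  exact (analyticAt_fst.comp (h1 (1, 0))).add (analyticAt_snd.comp (h1 (0, 1)))

/-- near a point where `v` is not zero -/
private theorem asmPL_loc {v : ℂ × ℂ → ℂ × ℂ} {g c : ℂ × ℂ → ℂ} {x : ℂ × ℂ} (hv : AnalyticAt ℂ v x) (h0 : v x ≠ 0) (hg : AnalyticAt ℂ g x)
    (hc : AnalyticAt ℂ c x) (hcof : ∀ᶠ y in 𝓝 x, fderiv ℂ g y (v y) = c y * g y) :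
    ∃ N ∈ 𝓝 x, ∃ B : ℝ, 0 ≤ B ∧ ∀ (p : ℂ → ℂ × ℂ) (z : ℂ), AnalyticAt ℂ p z → p z ∈ N →
      (∀ᶠ w in 𝓝 z, (v (p w)).1 * (deriv p w).2 - (v (p w)).2 * (deriv p w).1 = 0) → (∃ᶠ w in 𝓝 z, g (p w) ≠ 0) →
        ‖DDv v g p z‖ ≤ B * ‖deriv p z‖ := by
  have hb : 0 < ‖v x‖ := norm_pos_iff.2 h0
  set b : ℝ := ‖v x‖ / 2 with hbdef
  have hb2 : 0 < b := by positivity
  set K : ℝ := ‖dvg v x - c x‖ + 1 with hK
  have hK0 : 0 < K := by positivity
  have e1 : ∀ᶠ y in 𝓝 x, b < ‖v y‖ := hv.continuousAt.norm.eventually (lt_mem_nhds (by linarith))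
  have e2 : ∀ᶠ y in 𝓝 x, ‖dvg v y - c y‖ < K := ((asmPL_dvg hv).sub hc).continuousAt.norm.eventually (gt_mem_nhds (by rw [hK]; simp))
  refine ⟨_, (hv.eventually_analyticAt.and (hg.eventually_analyticAt.and (hc.eventually_analyticAt.and
    (hcof.eventually_nhds.and (e1.and e2))))), K / b, by positivity, ?_⟩
  intro p z hp hpz hode hgn
  obtain ⟨hv', hg', hc', hcof', hb', hK'⟩ := hpz
  have hv0 : v (p z) ≠ 0 := norm_pos_iff.1 (hb2.trans hb')
  have hvp : AnalyticAt ℂ (fun w => v (p w)) z := AnalyticAt.fun_comp (g := v) (f := p) hv' hp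
  have hne : ∀ᶠ w in 𝓝 z, v (p w) ≠ 0 := hvp.continuousAt.eventually_ne hv0
  have hga : AnalyticAt ℂ (fun w => g (p w)) z := AnalyticAt.fun_comp (g := g) (f := p) hg' hp
  have hca : AnalyticAt ℂ (fun w => c (p w)) z := AnalyticAt.fun_comp (g := c) (f := p) hc' hp
  have hzt : AnalyticAt ℂ (ztv v p) z := ztv_an hp hv' hode hv0
  have hd : ∀ᶠ w in 𝓝 z, deriv (fun w => g (p w)) w = (ztv v p w * c (p w)) * g (p w) := by
    filter_upwards [hode, hne, hp.eventually_analyticAt, hp.continuousAt.eventually hg'.eventually_analyticAt,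
      hp.continuousAt.eventually hcof'] with w a1 a2 a3 a4 a5
    have a6 : deriv (fun w => g (p w)) w = fderiv ℂ g (p w) (deriv p w) :=
      (a4.differentiableAt.hasFDerivAt.comp_hasDerivAt w a3.differentiableAt.hasDerivAt).deriv
    rw [a6, ztv_smul a1 a2, map_smul, a5, smul_eq_mul]
    ring
  have hg0 : g (p z) ≠ 0 := by
    intro h1
    obtain ⟨w, h2, h3⟩ := (hgn.and_eventually (Pool.Agent.MQ2.RegE.eventually_zero_of_ode hga (hzt.mul hca) hd h1)).exists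
    exact h2 h3
  have h1 : DDv v g p z = (dvg v (p z) - c (p z)) * ztv v p z := by
    unfold DDv
    rw [hd.self_of_nhds, mul_div_assoc, div_self hg0]
    ring
  have h2 : ‖ztv v p z‖ * b ≤ ‖deriv p z‖ := by
    rw [ztv_smul hode.self_of_nhds hv0, norm_smul]
    exact mul_le_mul_of_nonneg_left hb'.le (norm_nonneg _)
  rw [h1, norm_mul]
  calc ‖dvg v (p z) - c (p z)‖ * ‖ztv v p z‖ ≤ K * ‖ztv v p z‖ := mul_le_mul_of_nonneg_right hK'.le (norm_nonneg _)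
    _ ≤ K * (‖deriv p z‖ / b) := mul_le_mul_of_nonneg_left (by rw [le_div_iff₀ hb2]; exact h2) hK0.le
    _ = K / b * ‖deriv p z‖ := by ring

/-- outside the core, in the polydisc of radius `s'` -/
private theorem asmPL_dd (C : Cov S Ra) {g : Fin C.nP → ℂ × ℂ → ℂ} (hg : PG C g) (j : Fin C.nP) {s' : ℝ} (hs' : s' < C.r j) :
    ∃ B : ℝ, 0 ≤ B ∧ ∀ F : ℂ → EN M, RCrv θ RD Ra F → ∀ Y : NCLift X F, ∀ z ∈ C.UP Y j, C.pj Y j z ∉ ball (0 : ℂ × ℂ) (C.s j) →
      C.pj Y j z ∈ closedBall (0 : ℂ × ℂ) s' → ‖DDv (S.v (C.ck j)) (g j) (S.lf Y (C.ck j)) z‖ ≤ B * ‖deriv (S.lf Y (C.ck j)) z‖ := by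
  have hK : IsCompact (closedBall (C.Q j) s' \ ball (C.Q j) (C.s j)) := (isCompact_closedBall _ _).diff isOpen_ball
  have hloc : ∀ x ∈ closedBall (C.Q j) s' \ ball (C.Q j) (C.s j), ∃ N ∈ 𝓝 x, ∃ B : ℝ, 0 ≤ B ∧ ∀ (p : ℂ → ℂ × ℂ) (z : ℂ), AnalyticAt ℂ p z → p z ∈ N →
      (∀ᶠ w in 𝓝 z, (S.v (C.ck j) (p w)).1 * (deriv p w).2 - (S.v (C.ck j) (p w)).2 * (deriv p w).1 = 0) → (∃ᶠ w in 𝓝 z, g j (p w) ≠ 0) →
        ‖DDv (S.v (C.ck j)) (g j) p z‖ ≤ B * ‖deriv p z‖ := by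
    rintro x ⟨hx1, hx2⟩
    have hxQ : x ≠ C.Q j := by
      rintro rfl
      exact hx2 (mem_ball_self (C.s_pos j))
    have hxr : x ∈ closedBall (C.Q j) (C.r j) := closedBall_subset_closedBall hs'.le hx1
    obtain ⟨hga, -, ⟨c, hc, hcof⟩, -⟩ := hg.inv j x hxr hxQ
    have hv0 : S.v (C.ck j) x ≠ 0 := (C.P_reg j x hxr hxQ).elim (fun h => h.v_ne) fun h => h.v_ne
    exact asmPL_loc ((S.c (C.ck j)).v_an _ (C.P_sub j hxr).1) hv0 hga hc hcof
  choose! N hN B hB0 hB using hloc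
  obtain ⟨t, ht, htc⟩ := hK.elim_nhds_subcover N hN
  refine ⟨∑ x ∈ t, B x, Finset.sum_nonneg fun x hx => hB0 x (ht x hx), fun F hF Y z hz h1 h2 => ?_⟩
  have hmem : S.lf Y (C.ck j) z ∈ closedBall (C.Q j) s' \ ball (C.Q j) (C.s j) := by
    refine ⟨?_, fun h3 => h1 ?_⟩
    · rw [mem_closedBall, dist_eq_norm]
      rw [mem_closedBall_zero_iff] at h2
      exact h2
    · rw [mem_ball, dist_eq_norm] at h3
      rw [mem_ball_zero_iff]
      exact h3
  obtain ⟨x, hx, hxN⟩ := Set.mem_iUnion₂.1 (htc hmem)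
  have hode : ∀ᶠ w in 𝓝 z, (S.v (C.ck j) (S.lf Y (C.ck j) w)).1 * (deriv (S.lf Y (C.ck j)) w).2 -
      (S.v (C.ck j) (S.lf Y (C.ck j) w)).2 * (deriv (S.lf Y (C.ck j)) w).1 = 0 := by
    filter_upwards [(Om_open hF.toWCrv Y (C.ck j)).mem_nhds hz.1] with w hw
    exact lfN_tan hF.toWCrv Y (C.ck j) w hw
  refine (hB x (ht x hx) _ z (lfN_an hF.toWCrv Y (C.ck j) z hz.1) hxN hode
    ((g_ne C hg j hF Y z hz).frequently.filter_mono nhdsWithin_le_nhds)).trans ?_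
  exact mul_le_mul_of_nonneg_right (Finset.single_le_sum (f := B) (fun y hy => hB0 y (ht y hy)) hx) (norm_nonneg _)

/-- the open set of the special point `j` -/
def UPs (C : Cov S Ra) {F : ℂ → EN M} (Y : NCLift X F) (j : Fin C.nP) (s' : ℝ) : Set ℂ := {z | z ∈ C.UP Y j ∧ C.pj Y j z ∈ ball (0 : ℂ × ℂ) s'}

/-- **The patch of a special point.** -/
theorem patch_PL (hX : Surface (coneE P)) (hW : LW P Ko mK jH Wf) (C : Cov S Ra) (j : Fin C.nP) {s' : ℝ} (hs : C.s j < s') (hs' : s' < C.r j)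
    {g : Fin C.nP → ℂ × ℂ → ℂ} (hg : PG C g) {F : ℂ → EN M} (hF : LCrv θ RD Ko Ra F) (Y : NCLift X F) (hne : WNe Wf Y) {Θ : ℂ → ℂ}
    (hΘ : IsTh S Wf mK Y Θ) {A : ℝ} {lm : ℂ → ℝ} (hl : Dens C Y A lm) {A' δ : ℝ} (hδ : 0 ≤ δ) {al be C₁ : ℝ}
    (hup : ∀ z ∈ C.UP Y j, wt Wf Y (C.ck j).1 z ≠ 0 → C.Jj j (C.pj Y j z) ≠ 0 → JD al be (C.pj Y j z) ≠ 0 ∧
      Real.log ‖C.Jj j (C.pj Y j z)‖ + 1 / mK * Real.log ‖wt Wf Y (C.ck j).1 z‖ + jH / mK * Real.log ‖F z‖ ≤ C₁ + Real.log ‖JD al be (C.pj Y j z)‖)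
    (hL : LocX (C.vj j) (fun x => g j (C.Q j + x)) (JD al be) {z | z ∈ C.UP Y j ∧ C.pj Y j z ∈ ball (0 : ℂ × ℂ) s'} (C.pj Y j) lm (C.s j) A' δ) :
    ∃ (c : ℝ) (l : ℂ → ℝ) (e : ℂ → ℝ) (η : ℂ → ℂ) (err : ℂ → ℝ),
      IsPatch F (Psi mK jH F Θ) (2 * jH / mK) l (UPs C Y j s') e η err (C.core Y j) c (δ * A) ∧ Continuous l ∧ (∀ z, lm z ≤ l z) ∧
        (∃ B : ℝ, ∀ R, 1 ≤ R → ∫ z, tau R z * l z ^ 2 ≤ B * (En F R + 1)) ∧
        ∀ z ∈ UPs C Y j s', z ∉ C.core Y j → e =ᶠ[𝓝 z] eP S (g j) Wf mK jH Y (C.ck j) := by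
  obtain ⟨C₂, ll, η, Φ, err, hC₂, l_cont, l_ge, l_en, η_diff, err_cont, Φ_ls, out, inn, dvn, upp, intg⟩ := hL
  obtain ⟨B, hB0, hB⟩ := asmPL_dd C hg j hs'
  obtain ⟨K, hK⟩ := hl.energy
  have hcrv := crv_vj C j hF.toWCrv Y
  have hUP : UPs C Y j s' ⊆ C.UP Y j := fun z hz => hz.1
  have hUo : IsOpen (UPs C Y j s') := by
    rw [isOpen_iff_mem_nhds]
    intro z hz
    filter_upwards [hcrv.isOpen.mem_nhds hz.1, (hcrv.an z hz.1).continuousAt.eventually_mem (isOpen_ball.mem_nhds hz.2)] with w h1 h2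
    exact ⟨h1, h2⟩
  have hDD : ∀ w, DDv (C.vj j) (fun x => g j (C.Q j + x)) (C.pj Y j) w = DDv (S.v (C.ck j)) (g j) (S.lf Y (C.ck j)) w := fun w =>
    asmPL_DDv (S.v (C.ck j)) (g j) (C.Q j) (S.lf Y (C.ck j)) w
  have hzt : ∀ w, ztv (C.vj j) (C.pj Y j) w = ztv (S.v (C.ck j)) (S.lf Y (C.ck j)) w := fun w =>
    asmPL_ztv (S.v (C.ck j)) (C.Q j) (S.lf Y (C.ck j)) w
  have hadd : ∀ w, C.Q j + C.pj Y j w = S.lf Y (C.ck j) w := fun w => add_sub_cancel _ _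
  have hl0 : ∀ z, 0 ≤ lm z := fun z => (Pool.Agent.MQ.lam_nonneg F z).trans (hl.le z)
  have hll0 : ∀ z, 0 ≤ ll z := fun z => (hl0 z).trans (l_ge z)
  have hEn : ∀ R, 1 ≤ R → 0 ≤ En F R := fun R hR => integral_nonneg fun z => mul_nonneg (Pool.Agent.H30M.tau_nonneg hR z) (sq_nonneg _)
  -- outside the core
  have hcore : ∀ z ∈ UPs C Y j s', z ∉ C.core Y j → ∀ᶠ w in 𝓝 z, w ∈ UPs C Y j s' ∧ C.pj Y j w ∉ ball (0 : ℂ × ℂ) (C.s j) := by
    intro z hz hzc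
    have h1 : C.pj Y j z ∉ closedBall (0 : ℂ × ℂ) (C.s j) := by
      intro h2
      refine hzc ⟨hz.1.1, ?_⟩
      rw [mem_closedBall, dist_eq_norm]
      rw [mem_closedBall_zero_iff] at h2
      exact h2
    filter_upwards [hUo.mem_nhds hz, (hcrv.an z hz.1).continuousAt.eventually_mem (isClosed_closedBall.isOpen_compl.mem_nhds h1)] with w h2 h3
    exact ⟨h2, fun h4 => h3 (ball_subset_closedBall h4)⟩
  -- the analytic equation
  have hga : ∀ z ∈ C.UP Y j, AnalyticAt ℂ (g j) (S.lf Y (C.ck j) z) := by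
    intro z hz
    by_cases h0 : S.lf Y (C.ck j) z = C.Q j
    · rw [h0]
      exact hg.an j
    · exact (hg.inv j _ (ball_subset_closedBall hz.2) h0).1
  -- the generic points
  have hgen : ∀ z ∈ UPs C Y j s', ∀ᶠ w in 𝓝[≠] z, w ∈ UPs C Y j s' ∧ ContDiffAt ℝ 2 Φ w ∧ ContDiffAt ℝ 2 (eP S (g j) Wf mK jH Y (C.ck j)) w ∧
      Δ (eP S (g j) Wf mK jH Y (C.ck j)) w = 2 * jH / mK * lam F w ^ 2 ∧
      gr (eP S (g j) Wf mK jH Y (C.ck j)) w + (starRingEnd ℂ) (DDv (S.v (C.ck j)) (g j) (S.lf Y (C.ck j)) w) = Psi mK jH F Θ w ∧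
      eP S (g j) Wf mK jH Y (C.ck j) w + Φ w ≤ C₂ + C₁ + Real.log (1 + ll w) := by
    intro z hz
    obtain ⟨c, hc⟩ := Φ_ls z hz
    filter_upwards [(hUo.eventually_mem hz).filter_mono nhdsWithin_le_nhds, hc.eventually,
      gr_eP hX hW hF Y hne hΘ hz.1.1 (hga z hz.1) ((g_ne C hg j hF.toRCrv Y z hz.1).frequently.filter_mono nhdsWithin_le_nhds),
      lfN_ne hF.toWCrv Y (C.ck j) z hz.1.1, g_ne C hg j hF.toRCrv Y z hz.1,
      hne (C.ck j).1 z (Om_sub hF.toWCrv Y (C.ck j) hz.1.1)] with w h1 h2 h3 h4 h5 h6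
    refine ⟨h1, h2, h3.1, h3.2.1, h3.2.2, ?_⟩
    have hJ : C.Jj j (C.pj Y j w) = jc (S.κ (C.ck j)) (S.lf Y (C.ck j) w) := by
      unfold Cov.Jj
      rw [hadd]
    obtain ⟨h7, h8⟩ := hup w h1.1 h6 (by rw [hJ]; exact h4.2.2.2.2)
    have h9 := upp w h1 h2 (by rw [hzt]; exact h4.2.2.2.1) (by simp only [hadd]; exact h5) h7
    simp only [hadd] at h9
    rw [hzt] at h9
    rw [hJ] at h8
    unfold eP
    linarith
  have hLS : ∀ z ∈ UPs C Y j s', ∃ c, LogSing (fun w => eP S (g j) Wf mK jH Y (C.ck j) w + Φ w) c z := by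
    intro z hz
    obtain ⟨c, hc⟩ := Φ_ls z hz
    obtain ⟨c', hc'⟩ := logSing_P hX hW C hg j hF Y hne z hz.1
    exact ⟨_, hc'.add hc⟩
  set c : ℝ := C₂ + B + |C₁| + δ * |K| with hc
  have hδK : 0 ≤ δ * |K| := mul_nonneg hδ (abs_nonneg _)
  have hC1 := abs_nonneg C₁
  have hC1' := le_abs_self C₁
  have hc1 : C₂ ≤ c := by rw [hc]; linarith
  have hc2 : B ≤ c := by rw [hc]; linarith
  have hc3 : C₂ + C₁ ≤ c := by rw [hc]; linarith
  refine ⟨c, ll, fun w => eP S (g j) Wf mK jH Y (C.ck j) w + Φ w, η, err, ⟨hUo, fun z hz => ?_, η_diff, fun z hz => ?_, fun z hz hzc => ?_,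
    core_closed C hF.toWCrv Y j, fun z hz => ?_, err_cont, fun z hz hzc => (out z hz (hcore z hz hzc).self_of_nhds.2).2.1, fun z hz he => ?_, fun R hR => ?_,
    fun z hz he => ?_⟩, l_cont, l_ge, ?_, fun z hz hzc => ?_⟩
  · -- the coefficient
    obtain ⟨c', hc'⟩ := hLS z hz
    refine ⟨c', ?_, hc'⟩
    have h1 : ∀ᶠ w in 𝓝[≠] z, Real.log (1 + ll w) < Real.log (1 + ll z) + 1 := by
      have h2 : ContinuousAt (fun w => Real.log (1 + ll w)) z :=
        (continuous_const.add l_cont).continuousAt.log (by have := hll0 z; exact (by linarith : (0 : ℝ) < 1 + ll z).ne')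
      exact (h2.eventually (gt_mem_nhds (by linarith))).filter_mono nhdsWithin_le_nhds
    refine logSing_nonneg (B := C₂ + C₁ + (Real.log (1 + ll z) + 1)) hc' ?_
    refine Eventually.frequently ?_
    filter_upwards [hgen z hz, h1] with w h2 h3
    linarith [h2.2.2.2.2.2]
  · -- the bound of the field
    by_cases hin : C.pj Y j z ∈ ball (0 : ℂ × ℂ) (C.s j)
    · exact (inn z hz hin).trans (mul_le_mul_of_nonneg_right hc1 (hll0 z))
    · rw [(out z hz hin).1, RCLike.norm_conj, hDD]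
      have h1 := hB F hF.toRCrv Y z hz.1 hin (ball_subset_closedBall hz.2)
      have h2 := (hl.pt j z hz.1.1 (ball_subset_closedBall hz.1.2)).trans (l_ge z)
      exact h1.trans (mul_le_mul hc2 h2 (norm_nonneg _) (hB0.trans hc2))
  · -- the common value
    have h1 : ∀ᶠ w in 𝓝 z, ∀ᶠ w' in 𝓝 w, eP S (g j) Wf mK jH Y (C.ck j) w' + Φ w' = eP S (g j) Wf mK jH Y (C.ck j) w' := by
      refine Eventually.eventually_nhds ?_
      filter_upwards [hcore z hz hzc] with w hw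
      rw [(out w hw.1 hw.2).2.2, add_zero]
    filter_upwards [hgen z hz, h1.filter_mono nhdsWithin_le_nhds, (hcore z hz hzc).filter_mono nhdsWithin_le_nhds] with w h2 h3 h4
    rw [(out w h4.1 h4.2).1, hDD, Pool.Agent.MQ.gr_congr h3]
    exact h2.2.2.2.2.1
  · -- the core is in the open set
    refine ⟨core_sub_UP C Y j hz, ?_⟩
    have h1 := hz.2
    rw [mem_closedBall, dist_eq_norm] at h1
    rw [mem_ball_zero_iff]
    exact h1.trans_lt hs
  · -- the Laplacian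
    refine lap_of_near (f := fun z => 2 * jH / mK * lam F z ^ 2) he (η_diff.contDiffAt (hUo.mem_nhds hz)) (err_cont.continuousAt (hUo.mem_nhds hz))
      (continuous_const.mul (hF.toWCrv.lam_cont.pow 2)).continuousAt ?_
    filter_upwards [hgen z hz] with w h2
    have h3 := dvn w h2.1 h2.2.1
    rw [Pool.Agent.H30M.lap_add h2.2.2.1 h2.2.1, h2.2.2.2.1]
    linarith
  · -- the integral of the error
    refine (intg R hR).trans ?_
    have h1 : 0 ≤ ∫ z, ‖gr (tau R) z‖ * ll z := integral_nonneg fun z => mul_nonneg (norm_nonneg _) (hll0 z)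
    have h2 := mul_le_mul_of_nonneg_left (hK R hR) hδ
    have h3 := mul_le_mul_of_nonneg_right hc1 h1
    have h4 := mul_le_mul_of_nonneg_left (le_abs_self K) hδ
    have h5 : C₂ + δ * K ≤ c := by rw [hc]; linarith
    have h6 : δ * (A * En F R + K) = δ * A * En F R + δ * K := by ring
    rw [h6] at h2
    linarith
  · -- the upper bound
    have h1 : ContinuousAt (fun w => c + Real.log (1 + ll w)) z :=
      continuousAt_const.add ((continuous_const.add l_cont).continuousAt.log (by have := hll0 z; exact (by linarith : (0 : ℝ) < 1 + ll z).ne'))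
    refine le_of_tendsto_of_tendsto (he.continuousAt.tendsto.mono_left nhdsWithin_le_nhds) (h1.tendsto.mono_left nhdsWithin_le_nhds)
      (f := fun w => eP S (g j) Wf mK jH Y (C.ck j) w + Φ w) (b := 𝓝[≠] z) ?_
    filter_upwards [hgen z hz] with w h2
    linarith [h2.2.2.2.2.2]
  · -- the energy of the density
    refine ⟨|A'| * (|A| + |K|) + C₂, fun R hR => (l_en R hR).trans ?_⟩
    have h1 := hK R hR
    have h2 := hEn R hR
    have h3 : 0 ≤ ∫ z, tau R z * lm z ^ 2 := integral_nonneg fun z => mul_nonneg (Pool.Agent.H30M.tau_nonneg hR z) (sq_nonneg _)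
    have h4 : ∫ z, tau R z * lm z ^ 2 ≤ (|A| + |K|) * (En F R + 1) := by
      have h5 := mul_le_mul_of_nonneg_right (le_abs_self A) h2
      have h6 : 0 ≤ |K| * En F R := mul_nonneg (abs_nonneg _) h2
      have h7 := le_abs_self K
      have h8 := abs_nonneg A
      have h9 : (|A| + |K|) * (En F R + 1) = |A| * En F R + |K| * En F R + |A| + |K| := by ring
      rw [h9]
      linarith
    have h5 := mul_le_mul_of_nonneg_right (le_abs_self A') h3
    have h6 := mul_le_mul_of_nonneg_left h4 (abs_nonneg A')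
    have h7 : C₂ ≤ C₂ * (En F R + 1) := le_mul_of_one_le_right hC₂ (by linarith)
    have h8 : (|A'| * (|A| + |K|) + C₂) * (En F R + 1) = |A'| * ((|A| + |K|) * (En F R + 1)) + C₂ * (En F R + 1) := by ring
    rw [h8]
    linarith
  · filter_upwards [hcore z hz hzc] with w hw
    rw [(out w hw.1 hw.2).2.2, add_zero]

end Pool.Agent.MQK
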