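import Pool.Agent.MQL.SDefs

/-!
# MQK SDefs: the open surface, weights with poles, curves which avoid the boundary, exponents

The definitions of `MQL/SDefs` for an arbitrary open part `Ko` of the cone: the complement of a curve `D` which is locally given by one equation
(`H36/BPL: OpenPart`).  The boundary is contained in the divisor `{RD = 0}` of the model.

* `LW`: `Wf` is a section of `mK (K + D) - jH H` with poles of order at most `mK - 1` along `D`.
* `LCrv`: the curves of the theorem, they avoid `D`.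
* `exX Ko mK φ q`, `exY Ko mK φ q`: the exponents of the two lines through `q` in the parametrization `φ`: `1 / mK - 1` if the line lies in `D`, otherwise `0`.
-/

set_option autoImplicit false

open Topology Filter Metric MvPolynomial MeasureTheory Laplacian

noncomputable section

namespace Pool.Agent.MQK

open Pool.Agent.MQL

open Pool.Agent.H36.BP (EN)
open Pool.Agent.H17BP (Surface IsForm)
open Pool.Agent.H36.BPL (OpenPart PoleLE)
open Pool.Agent.H17EF (coneE)
open Pool.Agent.MQ3

variable {M : ℕ}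

/-- the boundary is contained in `{RD = 0}` -/
structure DivB (P : Ideal (MvPolynomial (Fin (M + 1)) ℂ)) (RD : MvPolynomial (Fin (M + 1)) ℂ) (Ko : Set (EN M)) : Prop where
  op : OpenPart (coneE P) Ko
  le : ∀ x ∈ coneE P, x ∉ Ko → eval x.ofLp RD = 0

/-- a section of `mK (K + D) - jH H` with poles of order at most `mK - 1` -/
structure LW (P : Ideal (MvPolynomial (Fin (M + 1)) ℂ)) (Ko : Set (EN M)) (mK jH : ℕ) (Wf : EN M → EN M → EN M → ℂ) : Prop where
  one_m : 1 ≤ mK
  op : OpenPart (coneE P) Ko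
  form : IsForm Ko mK jH Wf
  pole : PoleLE (coneE P) Ko (mK - 1) Wf

variable {P : Ideal (MvPolynomial (Fin (M + 1)) ℂ)} {m : ℕ}

/-- the curves of the theorem avoid the boundary -/
structure LCrv (θ : WDiff (coneE P) m) (RD : MvPolynomial (Fin (M + 1)) ℂ) (Ko : Set (EN M)) (Ra : MvPolynomial (Fin (M + 1)) ℂ) (F : ℂ → EN M) : Prop
    extends RCrv θ RD Ra F where
  avoid : ∀ z, F z ∈ Ko

open Classical in
/-- the exponent of the line `x = q.1` -/
def exX (Ko : Set (EN M)) (mK : ℕ) (φ : ℂ × ℂ → EN M) (q : ℂ × ℂ) : ℝ :=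
  if ∀ᶠ t in 𝓝 (0 : ℂ), φ (q.1, q.2 + t) ∉ Ko then (mK : ℝ)⁻¹ - 1 else 0

open Classical in
/-- the exponent of the line `y = q.2` -/
def exY (Ko : Set (EN M)) (mK : ℕ) (φ : ℂ × ℂ → EN M) (q : ℂ × ℂ) : ℝ :=
  if ∀ᶠ t in 𝓝 (0 : ℂ), φ (q.1 + t, q.2) ∉ Ko then (mK : ℝ)⁻¹ - 1 else 0

end Pool.Agent.MQK
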