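import Pool.Agent.MQL.ThNK
import Pool.Agent.MQK.SDefs
import Pool.Agent.MQK.OkE

/-!
# MQK ThL: the function `Θ` for a weight with poles
-/

set_option autoImplicit false

open Topology Filter Metric MvPolynomial

noncomputable section

namespace Pool.Agent.MQK

open Pool.Agent.MQL

open Pool.Agent.H36.BP (EN)
open Pool.Agent.H17BP (Surface IsForm)
open Pool.Agent.H17EF (projVar coneE)
open Pool.Agent.H36.BPL (OpenPart)
open Pool.Agent.MQ3

variable {M : ℕ} {P : Ideal (MvPolynomial (Fin (M + 1)) ℂ)} {RD Ra : MvPolynomial (Fin (M + 1)) ℂ} {Ko : Set (EN M)} {m : ℕ} {X : NCModel P RD} {θ : WDiff (coneE P) m}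
  {l : LF M} {S : Web X θ l} {Wf : EN M → EN M → EN M → ℂ} {mK jH : ℕ}

theorem exists_theta {F : ℂ → EN M} (hX : Surface (coneE P)) (hW : LW P Ko mK jH Wf) (hF : LCrv θ RD Ko Ra F) (Y : NCLift X F) (hne : WNe Wf Y) :
    ∃ Θ : ℂ → ℂ, IsTh S Wf mK Y Θ :=
  exists_thetaK hX hW.one_m hW.op hW.form hF.toWCrv (hF.avoid) Y hne

end Pool.Agent.MQK
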