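import Pool.Agent.MQ3.AsmN
import Pool.Agent.MQK.AsmPL
import Pool.Agent.MQK.ThL
import Pool.Agent.MQK.EtaNL
import Pool.Agent.MQK.BdNL
import Pool.Agent.MQK.LogNL

/-!
# MQK AsmNL: the pack of a curve which avoids `D` from the local packages
-/

set_option autoImplicit false

open Topology Filter Metric MvPolynomial MeasureTheory Laplacian

noncomputable section

namespace Pool.Agent.MQK

open Pool.Agent.MQL

open Pool.Agent.H36.BP (EN fs)
open Pool.Agent.H17BP (Surface IsForm)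
open Pool.Agent.H17EF (projVar coneE)
open Pool.Agent.H30M (tau LogSing)
open Pool.Agent.MQ (lam En gr dv Pack)
open Pool.Agent.MQ2 (LocX)
open Pool.Agent.MQ3

variable {M : ℕ} {P : Ideal (MvPolynomial (Fin (M + 1)) ℂ)} {RD Ra : MvPolynomial (Fin (M + 1)) ℂ} {Ko : Set (EN M)} {m : ℕ} {X : NCModel P RD} {θ : WDiff (coneE P) m}
  {l : LF M} {S : Web X θ l} {Wf : EN M → EN M → EN M → ℂ} {mK jH : ℕ}

/-- the patch of a box -/
theorem isPatch_NL (hX : Surface (coneE P)) (hW : LW P Ko mK jH Wf) (C : Cov S Ra) {F : ℂ → EN M} (hF : LCrv θ RD Ko Ra F) (Y : NCLift X F)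
    (hne : WNe Wf Y) {Θ : ℂ → ℂ} (hΘ : IsTh S Wf mK Y Θ) {A B : ℝ} {lm : ℂ → ℝ} (hl : DensL C Y Wf mK jH A B lm) (k : Fin C.nN) :
    ∃ (c : ℝ) (η : ℂ → ℂ), 0 ≤ c ∧
      IsPatch F (Psi mK jH F Θ) (2 * jH / mK) lm (C.UN Y k) (eN (C.H k) Wf mK jH Y (C.b k)) η (fun _ => 0) ∅ c 0 := by
  obtain ⟨B₁, h₁⟩ := Pool.Agent.MQK.exists_etaN hX hW C k
  obtain ⟨η, h2, h3, h4⟩ := h₁ F hF Y hne Θ hΘ A lm hl.toDens
  have hO := UN_open C hF.toWCrv Y k
  have hlm0 : ∀ z, 0 ≤ lm z := fun z => (Pool.Agent.MQ.lam_nonneg F z).trans (hl.le z)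
  refine ⟨|B₁| + |B|, η, by positivity, ⟨hO, fun z hz => Pool.Agent.MQK.logSing_N hX hW C k hF Y hne z hz.1 hz.2.1, h2, fun z hz => ?_, fun z hz _ => ?_,
    isClosed_empty, Set.empty_subset _, continuousOn_const, fun _ _ _ => rfl, fun z hz he => ?_, fun R hR => ?_, fun z hz he => ?_⟩⟩
  · refine (h3 z hz).trans (mul_le_mul_of_nonneg_right ?_ (hlm0 z))
    linarith [le_abs_self B₁, abs_nonneg B]
  · filter_upwards [h4 z hz] with w hw
    rw [add_comm]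
    exact hw.1
  · refine lap_of_near (e := eN (C.H k) Wf mK jH Y (C.b k)) (f := fun z => 2 * jH / mK * lam F z ^ 2) he (h2.contDiffAt (hO.mem_nhds hz))
      continuousAt_const (continuous_const.mul (hF.toWCrv.lam_cont.pow 2)).continuousAt ?_
    filter_upwards [h4 z hz] with w hw
    rw [hw.2.2, add_zero]
  · simp only [mul_zero, integral_zero, zero_mul, zero_add]
    have h7 : 0 ≤ ∫ z, ‖gr (tau R) z‖ * lm z := integral_nonneg fun z => mul_nonneg (norm_nonneg _) (hlm0 z)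
    positivity
  · have := hl.up k z hz.1 hz.2.1 he
    linarith [le_abs_self B, abs_nonneg B₁]

/-- **The pack of a curve which avoids `D` from the local packages.** -/
theorem pack_webL (hX : Surface (coneE P)) (hW : LW P Ko mK jH Wf) (C : Cov S Ra) : ∃ s' : Fin C.nP → ℝ, (∀ j, C.s j < s' j ∧ s' j < C.r j) ∧
    ∀ g : Fin C.nP → ℂ × ℂ → ℂ, PG C g → ∀ F : ℂ → EN M, LCrv θ RD Ko Ra F → ∀ Y : NCLift X F, WNe Wf Y →
      ∀ A B : ℝ, 0 ≤ A → ∀ lm : ℂ → ℝ, DensL C Y Wf mK jH A B lm → ∀ A' δ : ℝ, 0 ≤ δ → ∀ (al be : Fin C.nP → ℝ) (C₁ : ℝ),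
        (∀ j, ∀ z ∈ C.UP Y j, wt Wf Y (C.ck j).1 z ≠ 0 → C.Jj j (C.pj Y j z) ≠ 0 → JD (al j) (be j) (C.pj Y j z) ≠ 0 ∧
          Real.log ‖C.Jj j (C.pj Y j z)‖ + 1 / mK * Real.log ‖wt Wf Y (C.ck j).1 z‖ + jH / mK * Real.log ‖F z‖ ≤
            C₁ + Real.log ‖JD (al j) (be j) (C.pj Y j z)‖) →
        (∀ j, LocX (C.vj j) (fun x => g j (C.Q j + x)) (JD (al j) (be j)) {z | z ∈ C.UP Y j ∧ C.pj Y j z ∈ ball (0 : ℂ × ℂ) (s' j)} (C.pj Y j) lm (C.s j) A' δ) →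
        ∃ L : ℂ → ℝ, Continuous L ∧ (∀ z, lam F z ≤ L z) ∧ (∃ B : ℝ, ∀ R, 1 ≤ R → ∫ z, tau R z * L z ^ 2 ≤ B * (En F R + 1)) ∧
          Pack F L (2 * jH / mK) (C.nP * (δ * A)) := by
  classical
  obtain ⟨B₀, r', hr', hcut⟩ := exists_cut C
  have hs' : ∀ j, C.s j < (r' j + C.r j) / 2 ∧ (r' j + C.r j) / 2 < C.r j := fun j => by
    have h1 := hr' j
    constructor <;> linarith [h1.1, h1.2]
  refine ⟨fun j => (r' j + C.r j) / 2, hs', fun g hg F hF Y hne A B hA lm hl A' δ hδ al be C₁ hJ hL => ?_⟩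
  obtain ⟨Θ, hΘ⟩ := exists_theta hX hW hF Y hne
  choose c ll e η err hP hlc hll hel heP using fun j => patch_PL hX hW C j (hs' j).1 (hs' j).2 hg hF Y hne hΘ hl.toDens hδ (hJ j) (hL j)
  choose c' η' hc' hN using fun k => isPatch_NL hX hW C hF Y hne hΘ hl k
  obtain ⟨χ, x1, x2, x3, x4, x5, x6, x7⟩ := hcut F hF.toWCrv Y A lm hl.toDens
  set US : Fin C.nP → Set ℂ := fun j => {z | z ∈ C.UP Y j ∧ C.pj Y j z ∈ ball (0 : ℂ × ℂ) ((r' j + C.r j) / 2)} with hUS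
  have hsub : ∀ j, tsupport (χ (Sum.inl j)) ⊆ US j := fun j z hz => by
    refine ⟨x3 (Sum.inl j) hz, ?_⟩
    have h1 := x6 j z hz
    rw [mem_closedBall, dist_eq_norm] at h1
    rw [mem_ball_zero_iff]
    have h2 := (hr' j).2
    exact lt_of_le_of_lt h1 (by linarith)
  have hcore : ∀ j, C.core Y j ⊆ US j := fun j z hz => by
    refine ⟨core_sub_UP C Y j hz, ?_⟩
    have h1 := hz.2
    rw [mem_closedBall, dist_eq_norm] at h1
    rw [mem_ball_zero_iff]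
    exact lt_of_le_of_lt h1 (hs' j).1
  have hen : ∃ B : ℝ, ∀ R, 1 ≤ R → ∫ z, tau R z * lm z ^ 2 ≤ B * (En F R + 1) := by
    obtain ⟨K, hK⟩ := hl.energy
    refine ⟨A + |K|, fun R hR => (hK R hR).trans ?_⟩
    have h1 : 0 ≤ En F R := integral_nonneg fun z => mul_nonneg (Pool.Agent.H30M.tau_nonneg hR z) (sq_nonneg _)
    have h2 : 0 ≤ |K| * En F R := mul_nonneg (abs_nonneg _) h1
    have h3 := le_abs_self K
    nlinarith
  have hPP : ∀ {a b : Fin C.nP}, a ≠ b → ∀ {z : ℂ}, z ∈ C.UP Y a → z ∉ C.UP Y b := fun {a b} hab {z} hz hz' =>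
    C.disj F hF.toWCrv Y a b hab z hz.1 (ball_subset_closedBall hz.2) hz'.1 (ball_subset_closedBall hz'.2)
  have hPN : ∀ (a : Fin C.nP) (k : Fin C.nN), ∃ B' : ℝ, ∀ z ∈ US a, z ∈ C.UN Y k → S.lf Y (C.ck a) z ∈ closedBall (C.Q a) (r' a) →
      ContDiffAt ℝ 2 (e a) z → ContDiffAt ℝ 2 (eN (C.H k) Wf mK jH Y (C.b k)) z → |e a z - eN (C.H k) Wf mK jH Y (C.b k) z| ≤ B' := fun a k => by
    obtain ⟨B', hB'⟩ := Pool.Agent.MQK.bd_PN hX hW C hg a k (hr' a).2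
    refine ⟨B', fun z hz hz' hr he he' => ?_⟩
    have h1 := heP a z hz (hz'.2.2 a)
    rw [h1.self_of_nhds]
    exact hB' F hF Y hne z hz.1 hz' hr (he.congr_of_eventuallyEq h1.symm) he'
  have hsup : ∀ i z, χ i z = 1 → z ∈ tsupport (χ i) := fun i z h7 => subset_tsupport _ (by rw [Function.mem_support, h7]; exact one_ne_zero)
  have hD : ∑ i : Fin C.nP ⊕ Fin C.nN, (Sum.elim (fun _ => δ * A) (fun _ => 0) : Fin C.nP ⊕ Fin C.nN → ℝ) i = C.nP * (δ * A) := by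
    rw [Fintype.sum_sum_type]
    simp
  rw [← hD]
  refine pack_of_isPatch (Ψ := Psi mK jH F Θ) (lm := lm) (U := Sum.elim US (C.UN Y)) (K := Sum.elim (C.core Y) fun _ => ∅) (l := Sum.elim ll fun _ => lm)
    (c := Sum.elim c c') (e := Sum.elim e fun k => eN (C.H k) Wf mK jH Y (C.b k)) (η := Sum.elim η η') (err := Sum.elim err fun _ _ => 0)
    hF.diff hF.toWCrv.F_ne hF.ord hl.cont hl.le hen ?_ ?_ ?_ ?_ ?_ ?_ x1 x2 ?_ x4 x5 ?_
  · rintro (j | k)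
    · exact hlc j
    · exact hl.cont
  · rintro (j | k) z
    · exact hll j z
    · exact le_rfl
  · rintro (j | k)
    · exact hel j
    · exact hen
  · rintro (j | k)
    · exact mul_nonneg hδ hA
    · exact le_rfl
  · rintro (j | k)
    · exact hP j
    · exact hN k
  · rintro (a | k) (b | k') hij z hz
    · exact fun h => hPP (fun h => hij (by rw [h])) (core_sub_UP C Y a hz) h.1
    · exact fun h => h.2.2 a hz
    · exact absurd hz (Set.notMem_empty z)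
    · exact absurd hz (Set.notMem_empty z)
  · rintro (a | k)
    · exact hsub a
    · exact x3 (Sum.inr k)
  · rintro (a | k) (b | k')
    · by_cases hab : a = b
      · subst hab
        exact ⟨0, fun z _ _ _ _ => by simp⟩
      · exact ⟨0, fun z h1 h2 _ _ => absurd (x3 (Sum.inl b) h2) (hPP hab (x3 (Sum.inl a) (hsup _ z h1)))⟩
    · obtain ⟨B', hB'⟩ := hPN a k'
      exact ⟨B', fun z h1 h2 h3 h4 => hB' z (hsub a (hsup _ z h1)) (x3 (Sum.inr k') h2) (x6 a z (hsup _ z h1)) h3 h4⟩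
    · obtain ⟨B', hB'⟩ := hPN b k
      refine ⟨B', fun z h1 h2 h3 h4 => ?_⟩
      have h5 := hB' z (hsub b h2) (x3 (Sum.inr k) (hsup _ z h1)) (x6 b z h2) h4 h3
      rw [abs_sub_comm] at h5
      exact h5
    · obtain ⟨B', hB'⟩ := Pool.Agent.MQK.bd_NN hX hW C k k'
      exact ⟨B', fun z h1 h2 h3 h4 => hB' F hF Y hne z (x3 (Sum.inr k) (hsup _ z h1)) (x3 (Sum.inr k') h2) h3 h4⟩

end Pool.Agent.MQK
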