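import Pool.Agent.MQK.OkE
import Pool.Agent.MQ3.LfN
import Pool.Agent.MQ.AsmB0

/-!
# MQK AxLa: the curves avoid the axes with a negative exponent
-/

set_option autoImplicit false

open Topology Filter Metric MvPolynomial

noncomputable section

namespace Pool.Agent.MQK

open Pool.Agent.MQL

open Pool.Agent.H36.BP (EN)
open Pool.Agent.H17BP (Surface)
open Pool.Agent.H17EF (coneE)
open Pool.Agent.MQ (eval_smulE)
open Pool.Agent.MQ3

variable {M : ℕ} {P : Ideal (MvPolynomial (Fin (M + 1)) ℂ)} {RD Ra : MvPolynomial (Fin (M + 1)) ℂ} {Ko : Set (EN M)} {m : ℕ} {X : NCModel P RD} {θ : WDiff (coneE P) m}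
  {l : LF M} {S : Web X θ l} {mK : ℕ}

/-- the curves avoid the boundary upstairs -/
private theorem AxLa_ne (ho : Pool.Agent.H36.BPL.OpenPart (coneE P) Ko) (k : S.ι) {F : ℂ → EN M} (hF : LCrv θ RD Ko Ra F) (Y : NCLift X F) {z : ℂ}
    (hz : z ∈ S.Om Y k) : S.σ k (S.lf Y k z) ∈ Ko := by
  obtain ⟨c, hc, h1⟩ := Y.eq k.1 z (Om_sub hF.toWCrv Y k hz)
  have h2 : S.σ k (S.lf Y k z) = X.ρ k.1 (Y.p k.1 z) := by
    unfold Web.σ
    rw [(lfN_mem hF.toWCrv Y k z hz).2]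
  have h3 := hF.avoid z
  rw [h1] at h3
  rw [h2]
  exact (smul_mem_iff ho hc).1 h3

theorem avoidL (_hX : Surface (coneE P)) (hD : DivB P RD Ko) (k : S.ι) {q : ℂ × ℂ} (_hq : q ∈ S.D k) : ∀ᶠ r in 𝓝[>] (0 : ℝ), ∀ F : ℂ → EN M, LCrv θ RD Ko Ra F →
    ∀ Y : NCLift X F, Avoid (exX Ko mK (S.σ k) q) (exY Ko mK (S.σ k) q) {z | z ∈ S.Om Y k ∧ S.lf Y k z ∈ ball q r} fun z => S.lf Y k z - q := by
  classical
  have h1 : ∀ᶠ r in 𝓝[>] (0 : ℝ), exX Ko mK (S.σ k) q < 0 → ∀ t : ℂ, ‖t‖ < r → S.σ k (q.1, q.2 + t) ∉ Ko := by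
    by_cases hc : ∀ᶠ t in 𝓝 (0 : ℂ), S.σ k (q.1, q.2 + t) ∉ Ko
    · obtain ⟨δ, hδ, h⟩ := Metric.eventually_nhds_iff.1 hc
      filter_upwards [Ioo_mem_nhdsGT hδ] with r hr _ t ht
      exact h (by rw [dist_zero_right]; exact ht.trans hr.2)
    · filter_upwards with r hr
      rw [exX, if_neg hc] at hr
      exact absurd hr (lt_irrefl _)
  have h2 : ∀ᶠ r in 𝓝[>] (0 : ℝ), exY Ko mK (S.σ k) q < 0 → ∀ t : ℂ, ‖t‖ < r → S.σ k (q.1 + t, q.2) ∉ Ko := by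
    by_cases hc : ∀ᶠ t in 𝓝 (0 : ℂ), S.σ k (q.1 + t, q.2) ∉ Ko
    · obtain ⟨δ, hδ, h⟩ := Metric.eventually_nhds_iff.1 hc
      filter_upwards [Ioo_mem_nhdsGT hδ] with r hr _ t ht
      exact h (by rw [dist_zero_right]; exact ht.trans hr.2)
    · filter_upwards with r hr
      rw [exY, if_neg hc] at hr
      exact absurd hr (lt_irrefl _)
  filter_upwards [h1, h2] with r g1 g2 F hF Y
  refine ⟨fun hx z hz h0 => ?_, fun hy z hz h0 => ?_⟩
  · have h3 : ‖(S.lf Y k z).2 - q.2‖ < r := by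
      have h4 := hz.2
      rw [mem_ball, dist_eq_norm] at h4
      exact (norm_snd_le (S.lf Y k z - q)).trans_lt h4
    have h5 : (q.1, q.2 + ((S.lf Y k z).2 - q.2)) = S.lf Y k z := by
      refine Prod.ext ?_ (add_sub_cancel _ _)
      exact (sub_eq_zero.1 h0).symm
    have h6 := g1 hx _ h3
    rw [h5] at h6
    exact h6 (AxLa_ne hD.op k hF Y hz.1)
  · have h3 : ‖(S.lf Y k z).1 - q.1‖ < r := by
      have h4 := hz.2
      rw [mem_ball, dist_eq_norm] at h4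
      exact (norm_fst_le (S.lf Y k z - q)).trans_lt h4
    have h5 : (q.1 + ((S.lf Y k z).1 - q.1), q.2) = S.lf Y k z := by
      refine Prod.ext (add_sub_cancel _ _) ?_
      exact (sub_eq_zero.1 h0).symm
    have h6 := g2 hy _ h3
    rw [h5] at h6
    exact h6 (AxLa_ne hD.op k hF Y hz.1)

end Pool.Agent.MQK
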