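import Pool.Agent.MQK.SDefs
import Pool.Agent.H17BP.Div

/-!
# MQK AxLb: the weight contains the invariant axes in `D`
-/

set_option autoImplicit false

open Topology Filter Metric MvPolynomial

noncomputable section

namespace Pool.Agent.MQK

open Pool.Agent.MQL

open Pool.Agent.H36.BP (EN)
open Pool.Agent.H17BP (Surface)
open Pool.Agent.H17EF (coneE)
open Pool.Agent.MQ3

variable {M : ℕ} {P : Ideal (MvPolynomial (Fin (M + 1)) ℂ)} {RD Ra : MvPolynomial (Fin (M + 1)) ℂ} {Ko : Set (EN M)} {m : ℕ} {X : NCModel P RD} {θ : WDiff (coneE P) m}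
  {l : LF M} {S : Web X θ l} {mK : ℕ}

private theorem D_open (k : S.ι) : IsOpen (S.D k) := by
  have h1 : IsOpen ((S.c k).D) := isOpen_Dm
  have h2 : Continuous (S.κ k) := continuous_iff_continuousAt.2 fun q => (analyticAt_mono (w := (S.c k).w) (w' := (S.c k).w') q).continuousAt
  exact h1.inter ((X.isOpen k.1).preimage h2)

private theorem mem_cone {k : S.ι} {q : ℂ × ℂ} (hq : q ∈ S.D k) : S.σ k q ∈ coneE P := by
  have h1 : S.κ k q ∈ DD := X.sub k.1 hq.2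
  exact ((X.box k.1).mem _ h1.1.le h1.2.le).self_of_nhds

/-- the equation vanishes on an invariant line in `D` -/
private theorem line_zero (hD : DivB P RD Ko) {k : S.ι} {q : ℂ × ℂ} (hq : q ∈ S.D k) {g : ℂ × ℂ → ℂ} (hg : AnalyticAt ℂ g q)
    (hinv : ∀ᶠ x in 𝓝[≠] q, InvAt S Ra k x g) {L : ℂ → ℂ × ℂ} {w : ℂ × ℂ} (hL0 : L 0 = q) (hL : ∀ t, HasDerivAt L w t) (hne : ∀ t, t ≠ 0 → L t ≠ q)
    (h0 : ∀ᶠ t in 𝓝 (0 : ℂ), S.σ k (L t) ∉ Ko) (hv : ∀ᶠ t in 𝓝 (0 : ℂ), ∃ c : ℂ, S.v k (L t) = c • w) :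
    ∀ᶠ t in 𝓝 (0 : ℂ), g (L t) = 0 := by
  have hLc : ∀ t, ContinuousAt L t := fun t => (hL t).continuousAt
  have hLt : Tendsto L (𝓝 0) (𝓝 q) := by
    have := (hLc 0).tendsto
    rwa [hL0] at this
  have hLt' : Tendsto L (𝓝[≠] 0) (𝓝[≠] q) := by
    refine tendsto_nhdsWithin_iff.2 ⟨hLt.mono_left nhdsWithin_le_nhds, ?_⟩
    filter_upwards [self_mem_nhdsWithin] with t ht
    exact hne t ht
  have hR : ∀ᶠ t in 𝓝 (0 : ℂ), eval (S.σ k (L t)).ofLp (RD * Ra) = 0 := by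
    filter_upwards [h0, hLt.eventually ((D_open k).mem_nhds hq)] with t h1 h2
    rw [map_mul, hD.le _ (mem_cone h2) h1, zero_mul]
  have key : ∀ᶠ t in 𝓝[≠] (0 : ℂ), g (L t) = 0 := by
    filter_upwards [hLt'.eventually hinv, nhdsWithin_le_nhds hR.eventually_nhds, nhdsWithin_le_nhds hv] with t h1 h2 h3
    obtain ⟨hga, -, -, h, hha, hz, hh⟩ := h1
    by_contra hgt
    have h4 : ∀ᶠ t' in 𝓝 t, h (L t') = 0 := by
      filter_upwards [h2, (hLc t).tendsto.eventually hz, (hga.continuousAt.comp (hLc t)).eventually_ne hgt] with t' h5 h6 h7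
      exact (mul_eq_zero.1 (h6.1 h5)).resolve_left h7
    have h5 : HasDerivAt (fun t' => h (L t')) (fderiv ℂ h (L t) w) t := hha.differentiableAt.hasFDerivAt.comp_hasDerivAt t (hL t)
    have h6 : fderiv ℂ h (L t) w = 0 := by
      rw [← h5.deriv]
      have h7 : (fun t' => h (L t')) =ᶠ[𝓝 t] fun _ => 0 := h4
      rw [h7.deriv_eq, deriv_const]
    obtain ⟨c, hc⟩ := h3
    refine (hh.self_of_nhds h4.self_of_nhds).2 ?_
    rw [hc, map_smul, h6, smul_zero]
  have hgc : ContinuousAt (fun t => g (L t)) 0 := by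
    refine ContinuousAt.comp (g := g) (f := L) ?_ (hLc 0)
    rw [hL0]
    exact hg.continuousAt
  have h00 : g (L 0) = 0 := by
    have h1 : Tendsto (fun t => g (L t)) (𝓝[≠] 0) (𝓝 (g (L 0))) := hgc.tendsto.mono_left nhdsWithin_le_nhds
    have h2 : Tendsto (fun t => g (L t)) (𝓝[≠] (0 : ℂ)) (𝓝 0) := tendsto_const_nhds.congr' (key.mono fun t ht => ht.symm)
    exact tendsto_nhds_unique h1 h2
  rw [eventually_nhdsWithin_iff] at key
  filter_upwards [key] with t ht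
  by_cases h : t = 0
  · rw [h, h00]
  · exact ht h

/-- **The weight contains the invariant axes in `D`.** -/
theorem axW_of (hX : Surface (coneE P)) (hD : DivB P RD Ko) {k : S.ι} {q : ℂ × ℂ} (hq : q ∈ S.D k) {g : ℂ × ℂ → ℂ} (hg : AnalyticAt ℂ g q)
    (hinv : ∀ᶠ x in 𝓝[≠] q, InvAt S Ra k x g) :
    AxW (exX Ko mK (S.σ k) q) (exY Ko mK (S.σ k) q) (fun x => S.v k (q + x)) fun x => g (q + x) := by
  have _ := hX
  have hga : AnalyticAt ℂ (fun x => g (q + x)) 0 := by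
    refine AnalyticAt.fun_comp (g := g) (f := fun x : ℂ × ℂ => q + x) ?_ (by fun_prop)
    rwa [add_zero]
  have e1 : ∀ t : ℂ, q + ((0 : ℂ), t) = (q.1, q.2 + t) := fun t => Prod.ext (add_zero _) rfl
  have e2 : ∀ t : ℂ, q + (t, (0 : ℂ)) = (q.1 + t, q.2) := fun t => Prod.ext rfl (add_zero _)
  refine ⟨fun hal hv => ?_, fun hbe hv => ?_⟩
  · have h0 : ∀ᶠ t in 𝓝 (0 : ℂ), S.σ k (q.1, q.2 + t) ∉ Ko := by
      by_contra hcon
      rw [exX, if_neg hcon] at hal
      exact lt_irrefl _ hal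
    have h1 : ∀ᶠ t in 𝓝 (0 : ℂ), g (q.1, q.2 + t) = 0 := by
      refine line_zero (L := fun t => (q.1, q.2 + t)) (w := (0, 1)) hD hq hg hinv (by simp) (fun t => ?_) (fun t ht h => ?_) h0 ?_
      · exact (hasDerivAt_const t q.1).prodMk ((hasDerivAt_id t).const_add q.2)
      · exact ht (add_eq_left.1 (congrArg Prod.snd h))
      · filter_upwards [hv] with t ht
        rw [e1] at ht
        exact ⟨(S.v k (q.1, q.2 + t)).2, Prod.ext (by simp [ht]) (by simp)⟩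
    obtain ⟨g₀, hg₀, h2⟩ := Pool.Agent.H17BP.exists_div_x hga (by
      filter_upwards [h1] with t ht
      rw [e1]
      exact ht)
    exact ⟨g₀, hg₀, h2⟩
  · have h0 : ∀ᶠ t in 𝓝 (0 : ℂ), S.σ k (q.1 + t, q.2) ∉ Ko := by
      by_contra hcon
      rw [exY, if_neg hcon] at hbe
      exact lt_irrefl _ hbe
    have h1 : ∀ᶠ t in 𝓝 (0 : ℂ), g (q.1 + t, q.2) = 0 := by
      refine line_zero (L := fun t => (q.1 + t, q.2)) (w := (1, 0)) hD hq hg hinv (by simp) (fun t => ?_) (fun t ht h => ?_) h0 ?_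
      · exact ((hasDerivAt_id t).const_add q.1).prodMk (hasDerivAt_const t q.2)
      · exact ht (add_eq_left.1 (congrArg Prod.fst h))
      · filter_upwards [hv] with t ht
        rw [e2] at ht
        exact ⟨(S.v k (q.1 + t, q.2)).1, Prod.ext (by simp) (by simp [ht])⟩
    have hs : AnalyticAt ℂ (fun x : ℂ × ℂ => (x.2, x.1)) 0 := analyticAt_snd.prod analyticAt_fst
    have hst : Tendsto (fun x : ℂ × ℂ => (x.2, x.1)) (𝓝 0) (𝓝 0) := (by fun_prop : Continuous fun x : ℂ × ℂ => (x.2, x.1)).tendsto' _ _ rfl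
    obtain ⟨g₀, hg₀, h2⟩ := Pool.Agent.H17BP.exists_div_x (f := fun x : ℂ × ℂ => g (q + (x.2, x.1)))
      (AnalyticAt.fun_comp (g := fun x : ℂ × ℂ => g (q + x)) (f := fun x : ℂ × ℂ => (x.2, x.1)) hga hs) (by
      filter_upwards [h1] with t ht
      show g (q + (t, 0)) = 0
      rw [e2]
      exact ht)
    refine ⟨fun x => g₀ (x.2, x.1), AnalyticAt.fun_comp (g := g₀) (f := fun x : ℂ × ℂ => (x.2, x.1)) hg₀ hs, ?_⟩
    filter_upwards [hst.eventually h2] with x hx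
    exact hx

end Pool.Agent.MQK
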