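import Pool.Agent.MQK.PoleLoc
import Pool.Agent.MQK.WtL
import Pool.Agent.MQL.WtLeK

/-!
# MQK PolL: the poles of the weight, in boxes and in charts
-/

set_option autoImplicit false

open Topology Filter Metric MvPolynomial

noncomputable section

namespace Pool.Agent.MQK

open Pool.Agent.MQL

open Pool.Agent.H36.BP (EN)
open Pool.Agent.H36.BPL (OpenPart)
open Pool.Agent.H17BP (Surface IsForm)
open Pool.Agent.H17EF (projVar coneE)
open Pool.Agent.MQ3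

variable {M : ℕ} {P : Ideal (MvPolynomial (Fin (M + 1)) ℂ)} {RD Ra : MvPolynomial (Fin (M + 1)) ℂ} {Ko : Set (EN M)} {m : ℕ} {X : NCModel P RD} {θ : WDiff (coneE P) m}
  {l : LF M} {S : Web X θ l} {Wf : EN M → EN M → EN M → ℂ} {mK jH : ℕ}

/-- the axes near a point -/
private theorem ax_near {p : ℂ × ℂ} : ∀ᶠ x in 𝓝 p, x.1 * x.2 = 0 → (x.1 - p.1) * (x.2 - p.2) = 0 := by
  have h1 : ∀ᶠ x in 𝓝 p, x.1 = 0 → x.1 - p.1 = 0 := by
    by_cases h : p.1 = 0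
    · exact Eventually.of_forall fun x hx => by rw [hx, h, sub_zero]
    · filter_upwards [(continuous_fst.continuousAt (x := p)).eventually_ne h] with x hx h0
      exact absurd h0 hx
  have h2 : ∀ᶠ x in 𝓝 p, x.2 = 0 → x.2 - p.2 = 0 := by
    by_cases h : p.2 = 0
    · exact Eventually.of_forall fun x hx => by rw [hx, h, sub_zero]
    · filter_upwards [(continuous_snd.continuousAt (x := p)).eventually_ne h] with x hx h0
      exact absurd h0 hx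
  filter_upwards [h1, h2] with x h3 h4 h5
  rcases mul_eq_zero.1 h5 with h6 | h6
  · rw [h3 h6, zero_mul]
  · rw [h4 h6, mul_zero]

theorem wt_leB (hX : Surface (coneE P)) (hD : DivB P RD Ko) (hW : LW P Ko mK jH Wf) (i : X.ι) {p : ℂ × ℂ} (hp : p ∈ X.B i) :
    ∃ N ∈ 𝓝 p, ∃ C : ℝ, ∀ F : ℂ → EN M, Differentiable ℂ F → (∀ z, F z ∈ Ko) → ∀ Y : NCLift X F, ∀ z ∈ Y.U i, Y.p i z ∈ N →
      wt Wf Y i z ≠ 0 → 1 / mK * Real.log ‖wt Wf Y i z‖ + jH / mK * Real.log ‖F z‖ ≤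
        C + Real.log ‖JD (exX Ko mK (X.ρ i) p) (exY Ko mK (X.ρ i) p) (Y.p i z - p)‖ := by
  have hK := hW.op
  have hm := hW.one_m
  have hmK : 0 < (mK : ℝ) := by exact_mod_cast hm
  obtain ⟨C, hC⟩ := pole_loc hW (wtn_rho_an hp) (wtn_rho_mem hp) (by
    filter_upwards [(X.isOpen i).mem_nhds hp, ax_near (p := p)] with x hx h1 h0
    exact h1 ((X.div i x hx).1 (hD.le _ (wtn_rho_mem hx).self_of_nhds h0)))
  have hb := (wtn_rho_an hp).continuousAt.norm.eventually_lt continuousAt_const (lt_add_one _)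
  refine ⟨_, hC.and hb, C + jH / mK * Real.log (‖X.ρ i p‖ + 1), fun F hF ha Y z hz hN h0 => ?_⟩
  obtain ⟨h1, h2⟩ := hN
  have hFK := mem_okE hX ha Y
  obtain ⟨hw, h3⟩ := wt_logK hX hK hm hW.form Y hz (hFK z) h0
  have h4 := h1 (rho_K hK Y hz (hFK z)) hw
  have h5 : Real.log ‖X.ρ i (Y.p i z)‖ ≤ Real.log (‖X.ρ i p‖ + 1) :=
    Real.log_le_log (norm_pos_iff.2 (wtn_rho_ne hX (Y.mem i z hz))) h2.le
  have h6 : (jH : ℝ) / mK * Real.log ‖X.ρ i (Y.p i z)‖ ≤ jH / mK * Real.log (‖X.ρ i p‖ + 1) := mul_le_mul_of_nonneg_left h5 (by positivity)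
  rw [h3]
  linarith

theorem wt_leC (hX : Surface (coneE P)) (hD : DivB P RD Ko) (hW : LW P Ko mK jH Wf) (k : S.ι) {q : ℂ × ℂ} (hq : q ∈ S.D k) :
    ∃ N ∈ 𝓝 q, ∃ C : ℝ, ∀ F : ℂ → EN M, LCrv θ RD Ko Ra F → ∀ Y : NCLift X F, ∀ z ∈ S.Om Y k, S.lf Y k z ∈ N →
      wt Wf Y k.1 z ≠ 0 → jc (S.κ k) (S.lf Y k z) ≠ 0 →
        Real.log ‖jc (S.κ k) (S.lf Y k z)‖ + 1 / mK * Real.log ‖wt Wf Y k.1 z‖ + jH / mK * Real.log ‖F z‖ ≤
          C + Real.log ‖JD (exX Ko mK (S.σ k) q) (exY Ko mK (S.σ k) q) (S.lf Y k z - q)‖ := by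
  have hK := hW.op
  have hm := hW.one_m
  have hmK : 0 < (mK : ℝ) := by exact_mod_cast hm
  obtain ⟨C, hC⟩ := pole_loc hW (φ := S.σ k) (σ_an k q hq).1 (by
    filter_upwards [(D_open k).mem_nhds hq] with x hx
    exact (σ_an k x hx).2) (by
    filter_upwards [(D_open k).mem_nhds hq, ax_near (p := q)] with x hx h1 h0
    exact h1 ((zero_iff k x hx).1 (hD.le _ (σ_an k x hx).2 h0)))
  have hb := (σ_an k q hq).1.continuousAt.norm.eventually_lt continuousAt_const (lt_add_one _)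
  refine ⟨_, hC.and hb, C + jH / mK * Real.log (‖S.σ k q‖ + 1), fun F hF Y z hz hN h0 hj => ?_⟩
  obtain ⟨h1, h2⟩ := hN
  have hFK := mem_okE hX hF.avoid Y
  have hzU := Om_sub hF.toWCrv Y k hz
  obtain ⟨hxD, hκ⟩ := lfN_mem hF.toWCrv Y k z hz
  obtain ⟨hw, h3⟩ := wt_logK hX hK hm hW.form Y hzU (hFK z) h0
  have hρK := rho_K hK Y hzU (hFK z)
  have hσK : S.σ k (S.lf Y k z) ∈ Ko := by
    show X.ρ k.1 (S.κ k (S.lf Y k z)) ∈ Ko
    rw [hκ]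
    exact hρK
  have h5 := form_chartK hK hW.form hxD hσK
  rw [hκ] at h5
  have hne : Wf (S.σ k (S.lf Y k z)) (fderiv ℂ (S.σ k) (S.lf Y k z) (1, 0)) (fderiv ℂ (S.σ k) (S.lf Y k z) (0, 1)) ≠ 0 := by
    rw [h5]
    exact mul_ne_zero (pow_ne_zero _ hj) hw
  have h4 := h1 hσK hne
  rw [h5, norm_mul, norm_pow, Real.log_mul (pow_ne_zero _ (norm_ne_zero_iff.2 hj)) (norm_ne_zero_iff.2 hw), Real.log_pow] at h4
  have h7 : X.ρ k.1 (Y.p k.1 z) = S.σ k (S.lf Y k z) := by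
    rw [← hκ]
    rfl
  have h8 : Real.log ‖X.ρ k.1 (Y.p k.1 z)‖ ≤ Real.log (‖S.σ k q‖ + 1) := by
    refine Real.log_le_log (norm_pos_iff.2 (wtn_rho_ne hX (Y.mem k.1 z hzU))) ?_
    rw [h7]
    exact h2.le
  have h6 : (jH : ℝ) / mK * Real.log ‖X.ρ k.1 (Y.p k.1 z)‖ ≤ jH / mK * Real.log (‖S.σ k q‖ + 1) := mul_le_mul_of_nonneg_left h8 (by positivity)
  have h9 : 1 / (mK : ℝ) * (mK * Real.log ‖jc (S.κ k) (S.lf Y k z)‖) = Real.log ‖jc (S.κ k) (S.lf Y k z)‖ := by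
    field_simp
  rw [mul_add, h9] at h4
  rw [add_assoc, h3]
  linarith

end Pool.Agent.MQK
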