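import Pool.Agent.MQK.SDefs
import Pool.Agent.MQL.TreeD
import Pool.Agent.MQL.RegD
import Pool.Agent.MQL.RegC
import Pool.Agent.MQ3.SatN

/-!
# MQK FamL: the packages of all chart points

Zeros of the vector field: `goodD_of_iso`; regular points outside `Reg0`: `goodD_reg`; the points of `Reg0`: `goodC_reg0`, without formal curves.
-/

set_option autoImplicit false

open Topology Filter Metric MvPolynomial MeasureTheory

noncomputable section

namespace Pool.Agent.MQK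

open Pool.Agent.MQL

open Pool.Agent.H36.BP (EN)
open Pool.Agent.H17BP (Surface)
open Pool.Agent.H17EF (coneE)
open Pool.Agent.MQ2 (Iso Sep FZero)
open Pool.Agent.MQ3

variable {M : ℕ}

private theorem inv_gt {mK : ℕ} (hm : 1 ≤ mK) : (-1 : ℝ) < (mK : ℝ)⁻¹ - 1 := by
  have h1 : (0 : ℝ) < (mK : ℝ)⁻¹ := inv_pos.2 (by exact_mod_cast hm)
  linarith

theorem exX_gt {Ko : Set (EN M)} {mK : ℕ} (hm : 1 ≤ mK) (φ : ℂ × ℂ → EN M) (q : ℂ × ℂ) : -1 < exX Ko mK φ q := by
  unfold exX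
  split_ifs
  · exact inv_gt hm
  · norm_num

theorem exY_gt {Ko : Set (EN M)} {mK : ℕ} (hm : 1 ≤ mK) (φ : ℂ × ℂ → EN M) (q : ℂ × ℂ) : -1 < exY Ko mK φ q := by
  unfold exY
  split_ifs
  · exact inv_gt hm
  · norm_num

theorem exX_neg {Ko : Set (EN M)} {mK : ℕ} {φ : ℂ × ℂ → EN M} {q : ℂ × ℂ} (h : exX Ko mK φ q < 0) :
    ∀ᶠ t in 𝓝 (0 : ℂ), φ (q.1, q.2 + t) ∉ Ko := by
  by_contra h1
  rw [exX, if_neg h1] at h
  exact lt_irrefl _ h

theorem exY_neg {Ko : Set (EN M)} {mK : ℕ} {φ : ℂ × ℂ → EN M} {q : ℂ × ℂ} (h : exY Ko mK φ q < 0) :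
    ∀ᶠ t in 𝓝 (0 : ℂ), φ (q.1 + t, q.2) ∉ Ko := by
  by_contra h1
  rw [exY, if_neg h1] at h
  exact lt_irrefl _ h

variable {P : Ideal (MvPolynomial (Fin (M + 1)) ℂ)} {RD : MvPolynomial (Fin (M + 1)) ℂ} {Ko : Set (EN M)} {m : ℕ} {X : NCModel P RD} {θ : WDiff (coneE P) m} {l : LF M}
  {mK : ℕ}

/-- a line through `q` which lies in the boundary is an axis -/
theorem axX_of (hD : DivB P RD Ko) {S : Web X θ l} {k : S.ι} {q : ℂ × ℂ} (hq : q ∈ S.D k) (h : exX Ko mK (S.σ k) q < 0) : q.1 = 0 := by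
  have h1 := exX_neg h
  have hc : Tendsto (fun t : ℂ => (q.1, q.2 + t)) (𝓝 0) (𝓝 q) := by
    have : Continuous fun t : ℂ => (q.1, q.2 + t) := by fun_prop
    simpa using this.tendsto 0
  have h2 : ∀ᶠ t in 𝓝 (0 : ℂ), (q.1, q.2 + t) ∈ S.D k := hc.eventually ((D_open k).mem_nhds hq)
  have h3 : ∀ᶠ t in 𝓝[≠] (0 : ℂ), q.2 + t ≠ 0 := by
    by_cases h4 : q.2 = 0
    · filter_upwards [self_mem_nhdsWithin] with t ht
      rw [h4, zero_add]
      exact ht
    · have h5 : Tendsto (fun t : ℂ => q.2 + t) (𝓝 0) (𝓝 q.2) := by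
        have : Continuous fun t : ℂ => q.2 + t := by fun_prop
        simpa using this.tendsto 0
      exact (h5.eventually_ne h4).filter_mono nhdsWithin_le_nhds
  obtain ⟨t, h4, h5, h6⟩ := ((h1.filter_mono nhdsWithin_le_nhds).and ((h2.filter_mono nhdsWithin_le_nhds).and h3)).exists
  have h7 := (zero_iff k _ h5).1 (hD.le _ (σ_an k _ h5).2 h4)
  exact (mul_eq_zero.1 h7).resolve_right h6

/-- a line through `q` which lies in the boundary is an axis -/
theorem axY_of (hD : DivB P RD Ko) {S : Web X θ l} {k : S.ι} {q : ℂ × ℂ} (hq : q ∈ S.D k) (h : exY Ko mK (S.σ k) q < 0) : q.2 = 0 := by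
  have h1 := exY_neg h
  have hc : Tendsto (fun t : ℂ => (q.1 + t, q.2)) (𝓝 0) (𝓝 q) := by
    have : Continuous fun t : ℂ => (q.1 + t, q.2) := by fun_prop
    simpa using this.tendsto 0
  have h2 : ∀ᶠ t in 𝓝 (0 : ℂ), (q.1 + t, q.2) ∈ S.D k := hc.eventually ((D_open k).mem_nhds hq)
  have h3 : ∀ᶠ t in 𝓝[≠] (0 : ℂ), q.1 + t ≠ 0 := by
    by_cases h4 : q.1 = 0
    · filter_upwards [self_mem_nhdsWithin] with t ht
      rw [h4, zero_add]
      exact ht
    · have h5 : Tendsto (fun t : ℂ => q.1 + t) (𝓝 0) (𝓝 q.1) := by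
        have : Continuous fun t : ℂ => q.1 + t := by fun_prop
        simpa using this.tendsto 0
      exact (h5.eventually_ne h4).filter_mono nhdsWithin_le_nhds
  obtain ⟨t, h4, h5, h6⟩ := ((h1.filter_mono nhdsWithin_le_nhds).and ((h2.filter_mono nhdsWithin_le_nhds).and h3)).exists
  have h7 := (zero_iff k _ h5).1 (hD.le _ (σ_an k _ h5).2 h4)
  exact (mul_eq_zero.1 h7).resolve_left h6

theorem goodC_of_goodD {al be : ℝ} {v : ℂ × ℂ → ℂ × ℂ} (h : GoodD GT al be v) :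
    ∃ (n : ℕ) (c : Fin n → ℕ → ℂ → ℂ × ℂ), (∀ i, Sep v (c i)) ∧ GoodC c al be v := by
  obtain ⟨n, c, hc, h1⟩ := h
  exact ⟨n, c, hc, fun g hw ha => h1 g trivial hw ha⟩

/-- the package of one chart point -/
theorem exists_fam_pt (hD : DivB P RD Ko) (S : Web X θ l) (hm : 1 ≤ mK) (k : S.ι) (q : ℂ × ℂ) (hq : q ∈ S.D k) :
    ∃ (n : ℕ) (c : Fin n → ℕ → ℂ → ℂ × ℂ), (∀ i, Sep (fun x => S.v k (q + x)) (c i)) ∧ (Reg0 S k q → n = 0) ∧
      GoodC c (exX Ko mK (S.σ k) q) (exY Ko mK (S.σ k) q) fun x => S.v k (q + x) := by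
  have hv : AnalyticAt ℂ (fun x => S.v k (q + x)) 0 := by
    have h1 : AnalyticAt ℂ (fun x : ℂ × ℂ => q + x) 0 := analyticAt_const.add analyticAt_id
    have h2 : AnalyticAt ℂ (S.v k) (q + 0) := by
      rw [add_zero]
      exact v_an k q hq
    exact AnalyticAt.fun_comp (g := S.v k) (f := fun x : ℂ × ℂ => q + x) h2 h1
  have hv0 : S.v k (q + 0) = S.v k q := by rw [add_zero]
  by_cases hR : Reg0 S k q
  · refine ⟨0, fun i => i.elim0, fun i => i.elim0, fun _ => rfl, ?_⟩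
    refine goodC_reg0 (exX_gt hm _ _) (exY_gt hm _ _) ?_ hv (by rw [hv0]; exact hR.v_ne) ?_ ?_ _
    · by_contra h
      push Not at h
      exact hR.ne (Prod.ext (axX_of hD hq h.1) (axY_of hD hq h.2))
    · intro h
      have h0 := axX_of hD hq h
      rw [hv0]
      rcases hR.ax₁ h0 with h1 | h1
      · exact Or.inl h1
      · right
        have hc : Tendsto (fun t : ℂ => q + ((0 : ℂ), t)) (𝓝 0) (𝓝 q) := by
          have h2 : Continuous fun t : ℂ => q + ((0 : ℂ), t) := by fun_prop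
          have h3 := h2.tendsto 0
          rwa [show q + ((0 : ℂ), (0 : ℂ)) = q from add_zero q] at h3
        filter_upwards [hc.eventually h1] with t ht
        exact ht (by simp [h0])
    · intro h
      have h0 := axY_of hD hq h
      rw [hv0]
      rcases hR.ax₂ h0 with h1 | h1
      · exact Or.inl h1
      · right
        have hc : Tendsto (fun t : ℂ => q + (t, (0 : ℂ))) (𝓝 0) (𝓝 q) := by
          have h2 : Continuous fun t : ℂ => q + (t, (0 : ℂ)) := by fun_prop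
          have h3 := h2.tendsto 0
          rwa [show q + ((0 : ℂ), (0 : ℂ)) = q from add_zero q] at h3
        filter_upwards [hc.eventually h1] with t ht
        exact ht (by simp [h0])
  · have key : GoodD GT (exX Ko mK (S.σ k) q) (exY Ko mK (S.σ k) q) fun x => S.v k (q + x) := by
      by_cases h0 : S.v k q = 0
      · refine goodD_of_iso (exX_gt hm _ _) (exY_gt hm _ _) ⟨hv, hv0.trans h0, ?_⟩
        have h1 := v_iso k q hq
        rw [eventually_nhdsWithin_iff] at h1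
        have hc : Tendsto (fun x : ℂ × ℂ => q + x) (𝓝 0) (𝓝 q) := by
          have : Continuous fun x : ℂ × ℂ => q + x := by fun_prop
          simpa using this.tendsto 0
        filter_upwards [hc.eventually h1] with x hx hx0
        exact hx (by simpa using hx0)
      · exact goodD_reg (exX_gt hm _ _) (exY_gt hm _ _) hv (by rw [hv0]; exact h0)
    obtain ⟨n, c, h1, h2⟩ := goodC_of_goodD key
    exact ⟨n, c, h1, fun h => absurd h hR, h2⟩

/-- the packages of all chart points -/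
theorem exists_fam (hX : Surface (coneE P)) (hD : DivB P RD Ko) (S : Web X θ l) (hm : 1 ≤ mK) :
    ∃ (n : S.ι → ℂ × ℂ → ℕ) (fam : ∀ (k : S.ι) (q : ℂ × ℂ), Fin (n k q) → ℕ → ℂ → ℂ × ℂ),
      (∀ k, ∀ q ∈ S.D k, ∀ i, Sep (fun x => S.v k (q + x)) (fam k q i)) ∧ (∀ k, ∀ q ∈ S.D k, Reg0 S k q → n k q = 0) ∧
      ∀ k, ∀ q ∈ S.D k, GoodC (fam k q) (exX Ko mK (S.σ k) q) (exY Ko mK (S.σ k) q) fun x => S.v k (q + x) := by
  classical
  have key : ∀ (k : S.ι) (q : ℂ × ℂ), ∃ (n : ℕ) (c : Fin n → ℕ → ℂ → ℂ × ℂ), q ∈ S.D k → (∀ i, Sep (fun x => S.v k (q + x)) (c i)) ∧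
      (Reg0 S k q → n = 0) ∧ GoodC c (exX Ko mK (S.σ k) q) (exY Ko mK (S.σ k) q) fun x => S.v k (q + x) := by
    intro k q
    by_cases hq : q ∈ S.D k
    · obtain ⟨n, c, h⟩ := exists_fam_pt (mK := mK) hD S hm k q hq
      exact ⟨n, c, fun _ => h⟩
    · exact ⟨0, fun i => i.elim0, fun h => absurd h hq⟩
  choose n fam h using key
  exact ⟨n, fam, fun k q hq => (h k q hq).1, fun k q hq => (h k q hq).2.1, fun k q hq => (h k q hq).2.2⟩

end Pool.Agent.MQK
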