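import Pool.Agent.MQL.StartL
import Pool.Agent.H62.SA.MainF
import Pool.Agent.MQK.SDefs

/-!
# MQK StartL: a section of `m (K + D) - H` with poles of order at most `m - 1`, and the curves along which it vanishes
-/

set_option autoImplicit false

open Topology Filter Metric MvPolynomial

noncomputable section

namespace Pool.Agent.MQK

open Pool.Agent.MQL

open Pool.Agent.H36.BP (EN)
open Pool.Agent.H14.PP (Tan)
open Pool.Agent.H17BP (Surface IsChart IsForm NoZeros)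
open Pool.Agent.H36.BPL (PoleLE OpenPart isForm_pow_mul analyticAt_form)
open Pool.Agent.H62.FC (Homog)
open Pool.Agent.H62.SA (OnBd locCone exists_formF_of_smooth)
open Pool.Agent.H17LG.Variety (FunField IsLogGeneralType)
open Pool.Agent.H17EF (coneE LE)
open Pool.Agent.H13.SM (cone)
open Pool.Agent.E2 (frequently_ind exists_second isForm_transport)

variable {N s : ℕ}

/-- the cone over the open surface -/
def okG (P : Ideal (MvPolynomial (Fin (N + 1)) ℂ)) (G : Fin s → MvPolynomial (Fin (N + 1)) ℂ) : Set (EN N) :=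
  {x | x ∈ coneE P ∧ ∃ i, eval x.ofLp (G i) ≠ 0}

theorem okG_eq (P : Ideal (MvPolynomial (Fin (N + 1)) ℂ)) (G : Fin s → MvPolynomial (Fin (N + 1)) ℂ) : okG P G = (LE N).symm ⁻¹' locCone P G := rfl

/-- **A section of `m (K + D) - H` with poles of order at most `m - 1`.** -/
theorem exists_form_open {P : Ideal (MvPolynomial (Fin (N + 1)) ℂ)} [P.IsPrime] (hP : Homog P) {z : Fin 2 → FunField P} (hz : IsTranscendenceBasis ℂ z)
    (hsm : ∀ y : Fin (N + 1) → ℂ, y ≠ 0 → (∀ Q ∈ P, eval y Q = 0) → Module.finrank ℂ (Pool.Agent.H13.SM.conTan P y) ≤ 3)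
    {e : Fin s → ℕ} {G : Fin s → MvPolynomial (Fin (N + 1)) ℂ} (hG : ∀ i, (G i).IsHomogeneous (e i)) {i₀ : Fin s} (hi₀ : G i₀ ∉ P)
    (hO : OpenPart (coneE P) (okG P G)) (hgt : IsLogGeneralType (K := FunField P) (k := 2) (OnBd P G)) :
    ∃ (m : ℕ) (W : EN N → EN N → EN N → ℂ) (D : ℕ) (Q : MvPolynomial (Fin (N + 1)) ℂ), Q.IsHomogeneous D ∧ Q ∉ P ∧ LW P (okG P G) m 1 W ∧
      ∀ F : ℂ → EN N, Differentiable ℂ F → (∀ z, F z ∈ okG P G) → (∃ z w, ∀ c : ℂ, F z ≠ c • F w) →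
        (∀ z w, Tan (coneE P) (F z) w → W (F z) (deriv F z) w = 0) → ∀ z, eval (F z).ofLp Q = 0 := by
  obtain ⟨M, Om, D₀, Q₀, hM, hQ₀, hQ₀P, hΩ, hnz, hpole⟩ := exists_formF_of_smooth P hP hz hG hsm hgt
  have hX : Surface (coneE P) := Pool.Agent.H90.SG.surface_coneE hP hz hsm
  have hs : ∀ x ∈ locCone P G, ∀ c : ℂ, c ≠ 0 → c • x ∈ locCone P G := fun x hx c hc => hO.smul ((LE N) x) hx c hc
  have hform := isForm_pow_mul (k := e i₀ + 1) (d := e i₀) (by omega) hΩ (H := fun x => eval x (G i₀)) (analyticAt_form _)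
    (fun c x => Pool.Agent.H17BP.eval_smul_form (hG i₀) c x) hs
  have h1 : 1 * (e i₀ + 1) - e i₀ = 1 := by omega
  rw [h1] at hform
  have hpole' := PoleLE.pow_mul hM (Nat.succ_pos (e i₀)) hpole (H := fun x => eval x (G i₀)) (analyticAt_form _) fun x hx hxK => by
    by_contra h2
    exact hxK ⟨hx, i₀, h2⟩
  refine ⟨M * (e i₀ + 1), fun x v w => eval ((LE N).symm x) (G i₀) * Om ((LE N).symm x) ((LE N).symm v) ((LE N).symm w) ^ (e i₀ + 1), e i₀ + D₀, G i₀ * Q₀,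
    (hG i₀).mul hQ₀, fun h => (Ideal.IsPrime.mem_or_mem ‹P.IsPrime› h).elim hi₀ hQ₀P, ⟨Nat.mul_pos hM (Nat.succ_pos _), hO, ?_, ?_⟩, ?_⟩
  · rw [okG_eq]
    exact isForm_transport hform
  · rw [okG_eq]
    exact pole_transport hpole'
  intro F hF hFK hne h z₁
  by_contra hQ0
  have hFX : ∀ z, F z ∈ coneE P := fun z => (hFK z).1
  have hcont : Continuous fun z => eval (F z).ofLp (G i₀ * Q₀) := (MvPolynomial.continuous_eval _).comp ((LE N).symm.continuous.comp hF.continuous)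
  have h0 : ∀ z, F z ≠ 0 := fun z e => hX.zero (e ▸ hFX z)
  obtain ⟨z₂, hz2, hz2'⟩ := ((frequently_ind hF h0 hne z₁).and_eventually (hcont.continuousAt.eventually_ne hQ0)).exists
  rw [map_mul] at hz2'
  have hG2 : eval (F z₂).ofLp (G i₀) ≠ 0 := left_ne_zero_of_mul hz2'
  have hQ2 : eval (F z₂).ofLp Q₀ ≠ 0 := right_ne_zero_of_mul hz2'
  have hT : Tan (coneE P) (F z₂) (deriv F z₂) := by
    refine ⟨fun y => F (z₂ + y), ⟨?_, Eventually.of_forall fun y => hFX _⟩, by simp, ?_⟩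
    · exact (hF.comp (differentiable_id.const_add z₂)).analyticAt 0
    · have := deriv_comp_const_add F z₂ 0
      rw [add_zero] at this
      exact this
  obtain ⟨w, hw, hind⟩ := exists_second hX (hFX z₂) hT hz2
  -- tangent vectors of the open part
  have hTK : ∀ v, Tan (coneE P) (F z₂) v → (LE N).symm v ∈ Pool.Agent.H17BP.Tan (locCone P G) ((LE N).symm (F z₂)) := by
    rintro v ⟨γ, ⟨hγ, hγX⟩, hγ0, hγ1⟩
    refine Pool.Agent.H36.BP.tan_transport (LE N) ⟨γ, ⟨hγ, ?_⟩, hγ0, hγ1⟩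
    have hc : ContinuousAt (fun y => eval (γ y).ofLp (G i₀)) 0 :=
      ((MvPolynomial.continuous_eval (G i₀)).comp (LE N).symm.continuous).continuousAt.comp hγ.continuousAt
    have hn : eval (γ 0).ofLp (G i₀) ≠ 0 := by rw [hγ0]; exact hG2
    filter_upwards [hγX, hc.eventually_ne hn] with y hy hy'
    exact ⟨hy, i₀, hy'⟩
  refine mul_ne_zero hG2 (pow_ne_zero _ (hnz ((LE N).symm (F z₂)) (hFK z₂) (fun hh => hQ2 hh.2) _ (hTK _ hT) _ (hTK _ hw) ?_)) (h z₂ w hw)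
  have h3 := hind.map' ((LE N).symm : EN N →ₗ[ℂ] (Fin (N + 1) → ℂ)) (LinearMap.ker_eq_bot.2 (LE N).symm.injective)
  have h2 : (((LE N).symm : EN N →ₗ[ℂ] (Fin (N + 1) → ℂ)) ∘ ![F z₂, deriv F z₂, w]) =
      ![(LE N).symm (F z₂), (LE N).symm (deriv F z₂), (LE N).symm w] := by
    funext i
    fin_cases i <;> rfl
  rwa [h2] at h3

end Pool.Agent.MQK
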