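import Pool.Agent.MQK.FinL
import Pool.Agent.MQL.PBd

/-!
# MQK FinP: curves of order one differential equations on the complement of any curve; surfaces which are proper over an affine variety
-/

set_option autoImplicit false

open Topology Filter Metric MvPolynomial

noncomputable section

namespace Pool.Agent.MQK

open Pool.Agent.H36.BP (EN)
open Pool.Agent.H36.BPL (OpenPart)
open Pool.Agent.H36.LB (IsCurveComplement openPart_of_curveComplement curveComplement_of_proper)
open Pool.Agent.H17 (PN VanishesAt PseudoBrodyHyperbolic PseudoPicardHyperbolic)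
open Pool.Agent.H17EF (coneE LE)
open Pool.Agent.H13.SM (cone)
open Pool.Agent.H62.SA (OnBd locCone)
open Pool.Agent.H17LG.Variety (FunField IsLogGeneralType)
open Pool.Agent.SR2.T (Homog HasDim Smooth LogGT Loc GGL Hyperbolic)
open Pool.Agent.MQL.PB (HasR ProperOverAffine)
open Pool.Agent.MQL.PB.T

variable {N s : ℕ} {P : Ideal (MvPolynomial (Fin (N + 1)) ℂ)} {G : Fin s → MvPolynomial (Fin (N + 1)) ℂ}

/-- the cone over the complement of a curve, in the Euclidean norm -/
theorem openPart_E (h : OpenPart (cone P) (locCone P G)) : OpenPart (coneE P) (okG P G) where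
  sub x hx := hx.1
  smul x hx c hc := h.smul ((LE N).symm x) hx c hc
  eqn x hx := by
    obtain ⟨f, hf, hfe⟩ := h.eqn ((LE N).symm x) hx
    refine ⟨fun y => f ((LE N).symm y), hf.comp_of_eq (((LE N).symm : EN N →L[ℂ] (Fin (N + 1) → ℂ)).analyticAt x) rfl, ?_⟩
    exact ((LE N).symm.continuous.continuousAt.eventually hfe).mono fun y hy => hy

/-- **McQuillan's theorem** on the complement of any curve -/
theorem hasR_of_curveComplement [P.IsPrime] (hP : Homog P) (hdim : HasDim P 2) (hsmooth : Pool.Agent.AD.NC.IsSmooth P 2)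
    (hG : ∀ i, ∃ n, (G i).IsHomogeneous n) (hc : IsCurveComplement P G) (hgt : IsLogGeneralType (OnBd P G (k := 2))) : HasR P G := by
  intro m hm θ hθ
  choose e he using hG
  obtain ⟨R, d, hR, hRP, h⟩ := exists_R_open hP hdim hsmooth he (openPart_E (openPart_of_curveComplement hP he hc)) hgt hm θ hθ
  exact ⟨R, d, hR, hRP, fun F hF hFX hav => h F hF fun z => ⟨hFX z, hav z⟩⟩

/-- surfaces which are proper over an affine variety -/
theorem hasR_of_proper [P.IsPrime] (hP : Homog P) (hdim : HasDim P 2) (hs : Smooth P 2) (hpr : ProperOverAffine P G) (hgt : LogGT P G 2) : HasR P G := by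
  obtain ⟨M, F, e, h1, h2, h3, h4⟩ := hpr
  have hprop : Pool.Agent.H62.SA.IsProperMap P G F e := ⟨h1, h2, h3, h4⟩
  exact hasR_of_curveComplement hP hdim (Pool.Agent.SR2.T.isSmooth_of hs) (fun i => ⟨e i, by rw [← h2 i]; exact h1 i 0⟩) (curveComplement_of_proper hprop) hgt

/-- **The equivalences** for the smooth surfaces of logarithmic general type which are proper over an affine variety. -/
theorem tfae_proper [P.IsPrime] (hP : Homog P) (hdim : HasDim P 2) (hs : Smooth P 2) (hGP : ∃ i, G i ∉ P) (hpr : ProperOverAffine P G)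
    (hgt : LogGT P G 2) :
    List.TFAE [
      ∃ E : Eqn N, Nontrivial P E ∧ ∀ f, IsCurve (Loc P G) f → Satisfies E f,
      ∃ (R : MvPolynomial (Fin (N + 1)) ℂ) (d : ℕ), R.IsHomogeneous d ∧ R ∉ P ∧ ∀ f, IsCurve (Loc P G) f → ∀ z, VanishesAt R (f z),
      StronglyLogGT P G ∧ ∀ f, IsCurve (Loc P G) f → ∃ E : Eqn N, Nontrivial P E ∧ ∀ c : ℂ, c ≠ 0 → Satisfies E fun z => f (c * z),
      PseudoBrodyHyperbolic (Loc P G),
      PseudoPicardHyperbolic (Loc P G),
      PseudoKobayashi (Loc P G),
      GGL P G (Exc (Loc P G)),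
      Hyperbolic P G] :=
  Pool.Agent.MQL.PB.tfae_gen hP hdim hs hGP hpr hgt (hasR_of_proper hP hdim hs hpr hgt)

end Pool.Agent.MQK
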