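import Pool.Agent.MQK.SDefs
import Pool.Agent.MQL.Ax
import Pool.Agent.MQL.WtLeK

/-!
# MQK PoleLoc: the poles of the weight near a point, in a parametrization
-/

set_option autoImplicit false

open Topology Filter Metric MvPolynomial

noncomputable section

namespace Pool.Agent.MQK

open Pool.Agent.MQL

open Pool.Agent.H36.BP (EN)
open Pool.Agent.H17EF (coneE)

variable {M : ℕ} {P : Ideal (MvPolynomial (Fin (M + 1)) ℂ)} {Ko : Set (EN M)} {Wf : EN M → EN M → EN M → ℂ} {mK jH : ℕ}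

/-- a function of one variable which is not identically zero -/
private theorem one_ax {f : ℂ → ℂ} (hf : AnalyticAt ℂ f 0) (h : ¬ ∀ᶠ t in 𝓝 (0 : ℂ), f t = 0) : ∀ᶠ t in 𝓝 (0 : ℂ), f t = 0 → t = 0 := by
  have h1 := (hf.eventually_eq_zero_or_eventually_ne_zero).resolve_left h
  rw [eventually_nhdsWithin_iff] at h1
  filter_upwards [h1] with t h2 h3
  by_contra h4
  exact h2 h4 h3

private theorem pow_log {al : ℝ} {x : ℂ} (h : al ≠ 0 → x ≠ 0) : ‖x‖ ^ al ≠ 0 ∧ Real.log (‖x‖ ^ al) = al * Real.log ‖x‖ := by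
  by_cases h0 : al = 0
  · rw [h0, Real.rpow_zero, zero_mul, Real.log_one]
    exact ⟨one_ne_zero, rfl⟩
  · have h1 : 0 < ‖x‖ := norm_pos_iff.2 (h h0)
    exact ⟨(Real.rpow_pos_of_pos h1 _).ne', Real.log_rpow h1 _⟩

theorem pole_loc (hW : LW P Ko mK jH Wf) {φ : ℂ × ℂ → EN M} {q : ℂ × ℂ} (hφ : AnalyticAt ℂ φ q) (hX : ∀ᶠ x in 𝓝 q, φ x ∈ coneE P)
    (hax : ∀ᶠ x in 𝓝 q, φ x ∉ Ko → (x.1 - q.1) * (x.2 - q.2) = 0) :
    ∃ C : ℝ, ∀ᶠ x in 𝓝 q, φ x ∈ Ko → Wf (φ x) (fderiv ℂ φ x (1, 0)) (fderiv ℂ φ x (0, 1)) ≠ 0 →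
      1 / mK * Real.log ‖Wf (φ x) (fderiv ℂ φ x (1, 0)) (fderiv ℂ φ x (0, 1))‖ ≤ C + Real.log ‖JD (exX Ko mK φ q) (exY Ko mK φ q) (x - q)‖ := by
  classical
  -- the local equation
  obtain ⟨h, hh, heq⟩ := hW.op.eqn (φ q) hX.self_of_nhds
  set f : ℂ × ℂ → ℂ := fun x => h (φ x) with hfd
  have hf : AnalyticAt ℂ f q := AnalyticAt.comp (g := h) (f := φ) hh hφ
  have hfK : ∀ᶠ x in 𝓝 q, (φ x ∉ Ko ↔ f x = 0) := by
    filter_upwards [hφ.continuousAt.eventually heq, hX] with x h1 h2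
    exact h1 h2
  set a : Prop := ∀ᶠ t in 𝓝 (0 : ℂ), f (q.1, q.2 + t) = 0 with had
  set b : Prop := ∀ᶠ t in 𝓝 (0 : ℂ), f (q.1 + t, q.2) = 0 with hbd
  have l1 : Tendsto (fun t : ℂ => (q.1, q.2 + t)) (𝓝 0) (𝓝 q) := by
    have h1 : ContinuousAt (fun t : ℂ => (q.1, q.2 + t)) 0 := by fun_prop
    have h2 := h1.tendsto
    rwa [add_zero] at h2
  have l2 : Tendsto (fun t : ℂ => (q.1 + t, q.2)) (𝓝 0) (𝓝 q) := by
    have h1 : ContinuousAt (fun t : ℂ => (q.1 + t, q.2)) 0 := by fun_prop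
    have h2 := h1.tendsto
    rwa [add_zero] at h2
  have ea : (∀ᶠ t in 𝓝 (0 : ℂ), φ (q.1, q.2 + t) ∉ Ko) ↔ a := eventually_congr (l1.eventually hfK)
  have eb : (∀ᶠ t in 𝓝 (0 : ℂ), φ (q.1 + t, q.2) ∉ Ko) ↔ b := eventually_congr (l2.eventually hfK)
  have e1 : exX Ko mK φ q = al mK a := by
    unfold exX al
    rw [one_div]
    exact if_congr ea rfl rfl
  have e2 : exY Ko mK φ q = al mK b := by
    unfold exY al
    rw [one_div]
    exact if_congr eb rfl rfl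
  have hax' : ∀ᶠ x in 𝓝 q, f x = 0 → (x.1 - q.1) * (x.2 - q.2) = 0 := by
    filter_upwards [hax, hfK] with x h1 h2 h3
    exact h1 (h2.2 h3)
  have hsub : Tendsto (fun x : ℂ × ℂ => x - q) (𝓝 q) (𝓝 0) := by
    have h1 : ContinuousAt (fun x : ℂ × ℂ => x - q) q := by fun_prop
    have h2 := h1.tendsto
    rwa [sub_self] at h2
  have hs1 : Tendsto (fun x : ℂ × ℂ => x.1 - q.1) (𝓝 q) (𝓝 0) := (continuous_fst.tendsto (0 : ℂ × ℂ)).comp hsub
  have hs2 : Tendsto (fun x : ℂ × ℂ => x.2 - q.2) (𝓝 q) (𝓝 0) := (continuous_snd.tendsto (0 : ℂ × ℂ)).comp hsub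
  have f1 : AnalyticAt ℂ (fun t : ℂ => f (q.1, q.2 + t)) 0 :=
    AnalyticAt.comp (g := f) (f := fun t : ℂ => (q.1, q.2 + t)) (by rw [add_zero]; exact hf) (by fun_prop)
  have f2 : AnalyticAt ℂ (fun t : ℂ => f (q.1 + t, q.2)) 0 :=
    AnalyticAt.comp (g := f) (f := fun t : ℂ => (q.1 + t, q.2)) (by rw [add_zero]; exact hf) (by fun_prop)
  -- the zeros on the axes
  have k1 : ∀ᶠ x in 𝓝 q, x.1 - q.1 = 0 → f x = 0 → a ∨ x = q := by
    by_cases ha : a
    · exact Eventually.of_forall fun _ _ _ => Or.inl ha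
    · filter_upwards [hs2.eventually (one_ax f1 ha)] with x h1 h2 h3
      have h4 : x.1 = q.1 := sub_eq_zero.1 h2
      refine Or.inr (Prod.ext h4 (sub_eq_zero.1 (h1 ?_)))
      rw [add_sub_cancel, ← h4]
      exact h3
  have k2 : ∀ᶠ x in 𝓝 q, x.2 - q.2 = 0 → f x = 0 → b ∨ x = q := by
    by_cases hb : b
    · exact Eventually.of_forall fun _ _ _ => Or.inl hb
    · filter_upwards [hs1.eventually (one_ax f2 hb)] with x h1 h2 h3
      have h4 : x.2 = q.2 := sub_eq_zero.1 h2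
      refine Or.inr (Prod.ext (sub_eq_zero.1 (h1 ?_)) h4)
      rw [add_sub_cancel, ← h4]
      exact h3
  have k0 : f q = 0 → a ∨ b := fun h0 => by
    have hadd : Tendsto (fun x : ℂ × ℂ => q + x) (𝓝 0) (𝓝 q) := by
      have h1 : ContinuousAt (fun x : ℂ × ℂ => q + x) 0 := by fun_prop
      have h2 := h1.tendsto
      rwa [add_zero] at h2
    have h1 : AnalyticAt ℂ (fun x : ℂ × ℂ => f (q + x)) 0 :=
      AnalyticAt.comp (g := f) (f := fun x : ℂ × ℂ => q + x) (by rw [add_zero]; exact hf) (by fun_prop)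
    rcases ax_local h1 (by rw [add_zero]; exact h0) (by
      filter_upwards [hadd.eventually hax'] with x h2 h3
      have h4 := h2 h3
      rwa [Prod.fst_add, Prod.snd_add, add_sub_cancel_left, add_sub_cancel_left] at h4) with ⟨-, h2⟩ | ⟨-, h2⟩
    · refine Or.inl ?_
      filter_upwards [h2] with t h3
      have h4 : (q.1, q.2 + t) = q + (0, t) := Prod.ext (by simp) rfl
      rw [h4]
      exact h3
    · refine Or.inr ?_
      filter_upwards [h2] with t h3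
      have h4 : (q.1 + t, q.2) = q + (t, 0) := Prod.ext rfl (by simp)
      rw [h4]
      exact h3
  -- the function
  have hg : AnalyticAt ℂ (fun x : ℂ × ℂ => eqD a b (x - q)) q :=
    AnalyticAt.comp (g := eqD a b) (f := fun x : ℂ × ℂ => x - q) (eqD_an a b _) (by fun_prop)
  have hg0 : ∀ᶠ x in 𝓝 q, φ x ∉ Ko → eqD a b (x - q) = 0 := by
    filter_upwards [hX, hax', k1, k2, hfK] with x h1 h2 h3 h4 hk h5
    have h6 : f x = 0 := hk.1 h5
    have h8 : x = q → eqD a b (x - q) = 0 := fun h9 => by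
      rw [h9, sub_self]
      rw [h9] at h6
      rcases k0 h6 with h10 | h10
      · exact eqD_zero (Or.inl ⟨rfl, h10⟩)
      · exact eqD_zero (Or.inr ⟨rfl, h10⟩)
    rcases mul_eq_zero.1 (h2 h6) with h7 | h7
    · rcases h3 h7 h6 with h9 | h9
      · exact eqD_zero (Or.inl ⟨h7, h9⟩)
      · exact h8 h9
    · rcases h4 h7 h6 with h9 | h9
      · exact eqD_zero (Or.inr ⟨h7, h9⟩)
      · exact h8 h9
  obtain ⟨C, hC⟩ := pole_local hW.pole hφ hX hg hg0
  have hne1 : ∀ᶠ x in 𝓝 q, f x ≠ 0 → a → (x - q).1 ≠ 0 := by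
    by_cases ha : a
    · filter_upwards [hs2.eventually ha] with x h1 h2 _ h3
      have h4 : x.1 = q.1 := sub_eq_zero.1 h3
      apply h2
      rw [add_sub_cancel, ← h4] at h1
      exact h1
    · exact Eventually.of_forall fun _ _ h => absurd h ha
  have hne2 : ∀ᶠ x in 𝓝 q, f x ≠ 0 → b → (x - q).2 ≠ 0 := by
    by_cases hb : b
    · filter_upwards [hs1.eventually hb] with x h1 h2 _ h3
      have h4 : x.2 = q.2 := sub_eq_zero.1 h3
      apply h2
      rw [add_sub_cancel, ← h4] at h1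
      exact h1
    · exact Eventually.of_forall fun _ _ h => absurd h hb
  refine ⟨1 / mK * Real.log (max C 1), ?_⟩
  filter_upwards [hC, hX, hne1, hne2, hfK] with x h1 h2 h3 h4 hk h50 h6
  have h5 : f x ≠ 0 := fun h0 => hk.2 h0 h50
  have h7 := log_pole (a := a) (b := b) hW.one_m (h3 h5) (h4 h5) (norm_pos_iff.2 h6) (lt_max_of_lt_right one_pos) ((h1 h50).trans (le_max_left _ 1))
  have g1 := pow_log (al := al mK a) (x := (x - q).1) fun h8 => h3 h5 (by
    by_contra h9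
    apply h8
    unfold al
    rw [if_neg h9])
  have g2 := pow_log (al := al mK b) (x := (x - q).2) fun h8 => h4 h5 (by
    by_contra h9
    apply h8
    unfold al
    rw [if_neg h9])
  have g3 : ‖JD (al mK a) (al mK b) (x - q)‖ = ‖(x - q).1‖ ^ al mK a * ‖(x - q).2‖ ^ al mK b := by
    unfold JD
    rw [Complex.norm_real, Real.norm_eq_abs, abs_of_nonneg (by positivity)]
  rw [e1, e2, g3, Real.log_mul g1.1 g2.1, g1.2, g2.2]
  linarith

end Pool.Agent.MQK
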